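import Mathlib

namespace Pool.Agent.H.MP_033e98_co

open Finset

variable {V : Type*} [Fintype V] [DecidableEq V] {G : SimpleGraph V} [DecidableRel G.Adj] {r : V}

structure Rt (G : SimpleGraph V) (r : V) where
  par : V → V
  rk : V → ℕ
  lt : ∀ v, v ≠ r → rk (par v) < rk v
  adj : ∀ u v, G.Adj u v ↔ (u ≠ r ∧ par u = v) ∨ (v ≠ r ∧ par v = u)

def Leaf (G : SimpleGraph V) [DecidableRel G.Adj] (v : V) : Prop := G.degree v = 1

instance : DecidablePred (Leaf G) := fun v => inferInstanceAs (Decidable (G.degree v = 1))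

def Good (G : SimpleGraph V) [DecidableRel G.Adj] (p : ℕ) : Prop :=
  ∃ w : Sym2 V → ℕ, (∀ e ∈ G.edgeSet, 1 ≤ w e ∧ w e ≤ p) ∧
    Function.Injective (fun v => ∑ u ∈ G.neighborFinset v, w s(v, u))

lemma exists_rt (hG : G.IsTree) (r : V) : Nonempty (Rt G r) := by
  have h : ∀ v, ∃ u, v ≠ r → G.Adj v u ∧ G.dist u r < G.dist v r := by
    intro v
    by_cases hv : v = r
    · exact ⟨v, fun h => absurd hv h⟩
    obtain ⟨q, hq⟩ := hG.connected.exists_walk_length_eq_dist v r
    cases q with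
    | nil => exact absurd rfl hv
    | cons h q =>
      refine ⟨_, fun _ => ⟨h, ?_⟩⟩
      have := SimpleGraph.dist_le q
      simp at hq
      omega
  choose par hpar using h
  refine ⟨⟨par, fun v => G.dist v r, fun v hv => (hpar v hv).2, ?_⟩⟩
  have hinj : Set.InjOn (fun v => s(v, par v)) (univ.erase r : Finset V) := by
    intro a ha b hb e
    simp only [coe_erase, Set.mem_sdiff, Set.mem_singleton_iff] at ha hb
    simp only [Sym2.eq_iff] at e
    rcases e with e | e
    · exact e.1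
    · have h1 := (hpar a ha.2).2
      have h2 := (hpar b hb.2).2
      rw [e.2] at h1
      rw [← e.1] at h2
      omega
  have hsub : (univ.erase r).image (fun v => s(v, par v)) ⊆ G.edgeFinset := by
    intro e he
    obtain ⟨v, hv, rfl⟩ := mem_image.1 he
    simpa using (hpar v (mem_erase.1 hv).1).1
  have hc := card_image_of_injOn hinj
  rw [card_erase_of_mem (mem_univ r), card_univ] at hc
  have he := hG.card_edgeFinset
  have heq := eq_of_subset_of_card_le hsub (by omega)
  intro u v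
  constructor
  · intro h
    have : s(u, v) ∈ G.edgeFinset := by simpa using h
    rw [← heq] at this
    obtain ⟨w, hw, e⟩ := mem_image.1 this
    have hw' := (mem_erase.1 hw).1
    simp only [Sym2.eq_iff] at e
    rcases e with e | e
    · left; rw [← e.1]; exact ⟨hw', e.2⟩
    · right; rw [← e.1]; exact ⟨hw', e.2⟩
  · rintro (⟨h1, h2⟩ | ⟨h1, h2⟩)
    · rw [← h2]; exact (hpar u h1).1
    · rw [← h2]; exact (hpar v h1).1.symm

namespace Rt

variable (T : Rt G r)

def ch (v : V) : Finset V := univ.filter (fun w => w ≠ r ∧ T.par w = v)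

omit [DecidableRel G.Adj] in
lemma mem_ch {v w : V} : w ∈ T.ch v ↔ w ≠ r ∧ T.par w = v := by simp [ch]

omit [DecidableRel G.Adj] in
lemma rk_ch {v w : V} (h : w ∈ T.ch v) : T.rk v < T.rk w := by
  rw [mem_ch] at h
  rw [← h.2]; exact T.lt w h.1

omit [DecidableRel G.Adj] in
lemma par_not_ch {v : V} (hv : v ≠ r) : T.par v ∉ T.ch v := by
  intro h
  have := T.rk_ch h
  have := T.lt v hv
  omega

lemma nbr {v : V} (hv : v ≠ r) : G.neighborFinset v = insert (T.par v) (T.ch v) := by
  ext u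
  simp only [SimpleGraph.mem_neighborFinset, mem_insert, mem_ch, T.adj]
  constructor
  · rintro (h | h)
    · exact Or.inl h.2.symm
    · exact Or.inr h
  · rintro (h | h)
    · exact Or.inl ⟨hv, h.symm⟩
    · exact Or.inr h

lemma nbr_root : G.neighborFinset r = T.ch r := by
  ext u
  simp [mem_ch, T.adj]

lemma deg {v : V} (hv : v ≠ r) : G.degree v = (T.ch v).card + 1 := by
  rw [← SimpleGraph.card_neighborFinset_eq_degree, T.nbr hv, card_insert_of_notMem (T.par_not_ch hv)]

lemma deg_root : G.degree r = (T.ch r).card := by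
  rw [← SimpleGraph.card_neighborFinset_eq_degree, T.nbr_root]

lemma leaf_iff {v : V} (hv : v ≠ r) : Leaf G v ↔ T.ch v = ∅ := by
  rw [Leaf, T.deg hv, ← card_eq_zero]; omega

lemma par_int (hr : ¬ Leaf G r) {v : V} (hv : v ≠ r) : ¬ Leaf G (T.par v) := by
  by_cases h : T.par v = r
  · rwa [h]
  · rw [T.leaf_iff h]
    intro e
    have : v ∈ T.ch (T.par v) := T.mem_ch.2 ⟨hv, rfl⟩
    rw [e] at this
    simp at this

def S (x : V → ℤ) (v : V) : ℤ := ∑ w ∈ T.ch v, x w

def W (x : V → ℤ) (v : V) : ℤ := (if v = r then 0 else x v) + T.S x v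

omit [DecidableRel G.Adj] in
lemma S_congr {x y : V → ℤ} {v : V} (h : ∀ w ∈ T.ch v, x w = y w) : T.S x v = T.S y v :=
  sum_congr rfl h

omit [DecidableRel G.Adj] in
lemma le_S {x : V → ℤ} {v w : V} (h : ∀ w ∈ T.ch v, 0 ≤ x w) (hw : w ∈ T.ch v) :
    x w ≤ T.S x v := single_le_sum h hw

lemma fin0 (p : ℕ) (hr : ¬ Leaf G r) (x : V → ℤ) (h1 : ∀ v, v ≠ r → 1 ≤ x v ∧ x v ≤ p)
    (h2 : ∀ u v, Leaf G u → Leaf G v → x u = x v → u = v)
    (h3 : ∀ v, ¬ Leaf G v → (p : ℤ) < T.W x v)
    (h4 : ∀ u v, ¬ Leaf G u → ¬ Leaf G v → T.W x u = T.W x v → u = v) : Good G p := by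
  let f : V → V → ℤ := fun u v =>
    (if u ≠ r ∧ T.par u = v then x u else 0) + (if v ≠ r ∧ T.par v = u then x v else 0)
  have fs : ∀ u v, f u v = f v u := fun u v => add_comm _ _
  let w : Sym2 V → ℕ := Sym2.lift ⟨fun u v => (f u v).toNat, fun u v => by simp only [fs u v]⟩
  have f1 : ∀ u, u ≠ r → f u (T.par u) = x u := by
    intro u hu
    have := T.par_not_ch hu
    rw [mem_ch] at this
    simp only [f, this, if_false, add_zero]
    simp [hu]
  have w1 : ∀ u, u ≠ r → (w s(u, T.par u) : ℤ) = x u := by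
    intro u hu
    simp only [w, Sym2.lift_mk, f1 u hu]
    have := h1 u hu
    omega
  have key : ∀ v, ((∑ u ∈ G.neighborFinset v, w s(v, u) : ℕ) : ℤ) = T.W x v := by
    intro v
    have e : ∑ u ∈ T.ch v, (w s(v, u) : ℤ) = T.S x v := by
      refine sum_congr rfl ?_
      intro u hu
      rw [mem_ch] at hu
      rw [← hu.2, Sym2.eq_swap]
      exact w1 u hu.1
    push_cast
    by_cases hv : v = r
    · subst hv
      rw [T.nbr_root, e]; simp [W]
    · rw [T.nbr hv, sum_insert (T.par_not_ch hv), e, w1 v hv]; simp [W, hv]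
  refine ⟨w, ?_, ?_⟩
  · intro e he
    induction e using Sym2.ind with
    | _ u v =>
      rcases (T.adj u v).1 he with h | h
      · have a1 := w1 u h.1
        have := h1 u h.1
        rw [h.2] at a1
        omega
      · have a1 := w1 v h.1
        have := h1 v h.1
        rw [h.2, Sym2.eq_swap] at a1
        omega
  · intro u v e
    have e' : T.W x u = T.W x v := by
      rw [← key, ← key]
      exact congrArg _ e
    have lw : ∀ v, Leaf G v → T.W x v = x v ∧ x v ≤ p := by
      intro v hv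
      have hv' : v ≠ r := fun h => hr (h ▸ hv)
      refine ⟨?_, (h1 v hv').2⟩
      simp [W, S, hv', (T.leaf_iff hv').1 hv]
    by_cases hu : Leaf G u <;> by_cases hv : Leaf G v
    · exact h2 u v hu hv (by rw [← (lw u hu).1, ← (lw v hv).1, e'])
    · have := lw u hu; have := h3 v hv; omega
    · have := lw v hv; have := h3 u hu; omega
    · exact h4 u v hu hv e'

def top (v : V) : V := if _h : v ≠ r ∧ T.par v ≠ r then top (T.par v) else v
termination_by T.rk v
decreasing_by exact T.lt v _h.1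

omit [Fintype V] [DecidableRel G.Adj] in
lemma top_self {v : V} (h : T.par v = r) : T.top v = v := by
  rw [top]; simp [h]

omit [DecidableRel G.Adj] in
lemma top_ch {v w : V} (hv : v ≠ r) (h : w ∈ T.ch v) : T.top w = T.top v := by
  rw [mem_ch] at h
  rw [top, dif_pos ⟨h.1, by rw [h.2]; exact hv⟩, h.2]

lemma leaf_below {y : V} (hy : y ∈ T.ch r) : ∃ l, l ≠ r ∧ Leaf G l ∧ T.top l = y := by
  rw [mem_ch] at hy
  obtain ⟨l, hl, hm⟩ := exists_max_image (univ.filter (fun v => v ≠ r ∧ T.top v = y)) T.rk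
    ⟨y, by simp [hy.1, T.top_self hy.2]⟩
  simp only [mem_filter, mem_univ, true_and] at hl hm
  refine ⟨l, hl.1, ?_, hl.2⟩
  rw [T.leaf_iff hl.1, eq_empty_iff_forall_notMem]
  intro w hw
  have := hm w ⟨(T.mem_ch.1 hw).1, by rw [T.top_ch hl.1 hw, hl.2]⟩
  have := T.rk_ch hw
  omega

inductive Simp : V → Prop
  | per (v : V) : v ≠ r → (T.ch v).Nonempty → (∀ w ∈ T.ch v, Leaf G w) → Simp v
  | step (v w : V) : v ≠ r → T.ch v = {w} → Simp w → Simp v

lemma Simp.ne {T : Rt G r} {v : V} (h : T.Simp v) : v ≠ r ∧ ¬ Leaf G v := by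
  cases h with
  | per _ h1 h2 _ => exact ⟨h1, by rw [T.leaf_iff h1]; exact h2.ne_empty⟩
  | step _ w h1 h2 _ => exact ⟨h1, by rw [T.leaf_iff h1, h2]; simp⟩

lemma ch_eq {r' : V} (T' : Rt G r') {v : V} (h1 : v ≠ r) (h2 : v ≠ r') (h : T.par v = T'.par v) :
    T.ch v = T'.ch v := by
  have e := (T.nbr h1).symm.trans (T'.nbr h2)
  rw [← erase_insert (T.par_not_ch h1), e, h, erase_insert (T'.par_not_ch h2)]

lemma Simp.transfer {T : Rt G r} {r' : V} (T' : Rt G r') {v : V} (h : T.Simp v) (h2 : v ≠ r')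
    (h3 : T.par v = T'.par v) : T'.Simp v := by
  induction h with
  | per v a b c =>
    have e := T.ch_eq T' a h2 h3
    exact Simp.per v h2 (e ▸ b) (e ▸ c)
  | step v w a b _ ih =>
    have e := T.ch_eq T' a h2 h3
    have m1 : w ∈ T.ch v := by rw [b]; simp
    have m2 : w ∈ T'.ch v := e ▸ m1
    rw [mem_ch] at m1 m2
    exact Simp.step v w h2 (e ▸ b) (ih m2.1 (m1.2.trans m2.2.symm))

end Rt

end Pool.Agent.H.MP_033e98_co
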