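import Mathlib

namespace Pool.Agent.H.MP_033e98_co

open Finset
open scoped Pointwise

lemma sumset (X Y T : Finset ℤ) (k : ℤ) (hX : X.Nonempty) (hY : Y.Nonempty)
    (h : ∀ a ∈ X, ∀ b ∈ Y, k + a + b ∈ T) : X.card + Y.card ≤ T.card + 1 := by
  have h1 := cauchy_davenport_add_of_linearOrder_isCancelAdd hX hY
  have h2 : ((X + Y).image (fun z => k + z)).card = (X + Y).card :=
    card_image_of_injective _ (add_right_injective k)
  have h3 : (X + Y).image (fun z => k + z) ⊆ T := by
    intro z hz
    obtain ⟨w, hw, rfl⟩ := mem_image.1 hz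
    obtain ⟨a, ha, b, hb, rfl⟩ := mem_add.1 hw
    have := h a ha b hb
    rwa [add_assoc] at this
  have h4 := card_le_card h3
  have := hX.card_pos
  omega

lemma blocked (Z X : Finset ℤ) (g : ℤ) :
    ((X.filter (fun a => g + a ∈ Z)).image (fun a => g + a)).card
      + (X.filter (fun a => g + a ∉ Z)).card = X.card := by
  rw [card_image_of_injective _ (add_right_injective g)]
  exact card_filter_add_card_filter_not _

lemma free_of_card (Z X : Finset ℤ) (g : ℤ) (h : Z.card < X.card) : ∃ a ∈ X, g + a ∉ Z := by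
  by_contra hc
  push Not at hc
  have : (X.image (fun a => g + a)) ⊆ Z := by
    intro z hz
    obtain ⟨a, ha, rfl⟩ := mem_image.1 hz
    exact hc a ha
  have h2 := card_le_card this
  rw [card_image_of_injective _ (add_right_injective g)] at h2
  omega

lemma tri (Z X Y : Finset ℤ) (g s r : ℤ) (hc : Z.card + 2 ≤ X.card + Y.card)
    (hX : ∃ a ∈ X, g + a ∉ Z) (hY : ∃ b ∈ Y, s + b ∉ Z)
    (d1 : ∀ a ∈ X, ∀ b ∈ Y, g + a = s + b → g + a ∉ Z)
    (d2 : ∀ a ∈ X, ∀ a' ∈ X, ∀ b ∈ Y, g + a' = r + a + b → g + a' ∉ Z)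
    (d3 : ∀ a ∈ X, ∀ b ∈ Y, ∀ b' ∈ Y, s + b' = r + a + b → s + b' ∉ Z) :
    ∃ a ∈ X, ∃ b ∈ Y, g + a ∉ Z ∧ s + b ∉ Z ∧ r + a + b ∉ Z := by
  by_contra hn
  push Not at hn
  set A := (X.filter (fun a => g + a ∈ Z)).image (fun a => g + a) with hA
  set B := (Y.filter (fun a => s + a ∈ Z)).image (fun a => s + a) with hB
  have e1 := blocked Z X g
  have e2 := blocked Z Y s
  have hAB : Disjoint A B := by
    rw [disjoint_left]
    intro z hz hz'
    obtain ⟨a, ha, rfl⟩ := mem_image.1 hz
    obtain ⟨b, hb, hab⟩ := mem_image.1 hz'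
    rw [mem_filter] at ha hb
    exact d1 a ha.1 b hb.1 hab.symm ha.2
  have hsub : A ∪ B ⊆ Z := by
    intro z hz
    rcases mem_union.1 hz with hz | hz
    · obtain ⟨a, ha, rfl⟩ := mem_image.1 hz
      exact (mem_filter.1 ha).2
    · obtain ⟨a, ha, rfl⟩ := mem_image.1 hz
      exact (mem_filter.1 ha).2
  have h3 := sumset (X.filter (fun a => g + a ∉ Z)) (Y.filter (fun a => s + a ∉ Z)) (Z \ (A ∪ B)) r
    (by obtain ⟨a, h1, h2⟩ := hX; exact ⟨a, mem_filter.2 ⟨h1, h2⟩⟩)
    (by obtain ⟨a, h1, h2⟩ := hY; exact ⟨a, mem_filter.2 ⟨h1, h2⟩⟩)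
    (by
      intro a ha b hb
      rw [mem_filter] at ha hb
      have hz := hn a ha.1 b hb.1 ha.2 hb.2
      refine mem_sdiff.2 ⟨hz, ?_⟩
      intro hz'
      rcases mem_union.1 hz' with h | h
      · obtain ⟨a', ha', e⟩ := mem_image.1 h
        rw [mem_filter] at ha'
        exact d2 a ha.1 a' ha'.1 b hb.1 e ha'.2
      · obtain ⟨a', ha', e⟩ := mem_image.1 h
        rw [mem_filter] at ha'
        exact d3 a ha.1 b hb.1 a' ha'.1 e ha'.2)
  have h4 := card_sdiff_add_card_eq_card hsub
  rw [card_union_of_disjoint hAB] at h4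
  rw [← hA] at e1
  rw [← hB] at e2
  omega

lemma tri2 (Z X Y : Finset ℤ) (g s r : ℤ) (hc : 2 * Z.card + 2 ≤ X.card + Y.card)
    (hX : Z.card < X.card) (hY : Z.card < Y.card)
    (d1 : ∀ a ∈ X, ∀ b ∈ Y, g + a ≠ s + b) :
    ∃ a ∈ X, ∃ b ∈ Y, g + a ∉ Z ∧ s + b ∉ Z ∧ r + a + b ∉ Z := by
  by_contra hn
  push Not at hn
  set A := (X.filter (fun a => g + a ∈ Z)).image (fun a => g + a) with hA
  set B := (Y.filter (fun a => s + a ∈ Z)).image (fun a => s + a) with hB
  have e1 := blocked Z X g
  have e2 := blocked Z Y s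
  have hAB : Disjoint A B := by
    rw [disjoint_left]
    intro z hz hz'
    obtain ⟨a, ha, rfl⟩ := mem_image.1 hz
    obtain ⟨b, hb, hab⟩ := mem_image.1 hz'
    rw [mem_filter] at ha hb
    exact d1 a ha.1 b hb.1 hab.symm
  have hsub : A ∪ B ⊆ Z := by
    intro z hz
    rcases mem_union.1 hz with hz | hz
    · obtain ⟨a, ha, rfl⟩ := mem_image.1 hz
      exact (mem_filter.1 ha).2
    · obtain ⟨a, ha, rfl⟩ := mem_image.1 hz
      exact (mem_filter.1 ha).2
  have h3 := sumset (X.filter (fun a => g + a ∉ Z)) (Y.filter (fun a => s + a ∉ Z)) Z r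
    (by obtain ⟨a, h1, h2⟩ := free_of_card Z X g hX; exact ⟨a, mem_filter.2 ⟨h1, h2⟩⟩)
    (by obtain ⟨a, h1, h2⟩ := free_of_card Z Y s hY; exact ⟨a, mem_filter.2 ⟨h1, h2⟩⟩)
    (by
      intro a ha b hb
      rw [mem_filter] at ha hb
      exact hn a ha.1 b hb.1 ha.2 hb.2)
  have h4 := card_le_card hsub
  rw [card_union_of_disjoint hAB] at h4
  rw [← hA] at e1
  rw [← hB] at e2
  omega

def Sol (p : ℤ) (Z : Finset ℤ) (lam g s r : ℤ) : Prop :=
  ∃ a b, 1 ≤ a ∧ a ≤ p ∧ 1 ≤ b ∧ b ≤ p ∧ g + a ∉ Z ∧ s + b ∉ Z ∧ r + a + b ∉ Z ∧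
    g + a ≠ s + b ∧ g + a ≠ r + a + b ∧ s + b ≠ r + a + b ∧
    lam ≤ g + a ∧ lam ≤ s + b ∧ lam ≤ r + a + b

lemma cardI (a b : ℤ) (h : a ≤ b + 1) : ((Icc a b).card : ℤ) = b + 1 - a := by
  rw [Int.card_Icc]; omega

lemma L2 (p : ℤ) (Z : Finset ℤ) (g s r : ℤ) (hp : 3 ≤ p) (hZ : (Z.card : ℤ) ≤ p - 2)
    (h1 : g + 1 ∉ Z) (h2 : g + p ∉ Z) (hr : -1 ≤ r) (hg : r + 2 * p - 1 ≤ g)
    (hu : ∃ u, 1 ≤ u ∧ u ≤ s + p ∧ u ∉ Z) : Sol p Z 1 g s r := by
  obtain ⟨u, u1, u2, u3⟩ := hu
  by_cases c1 : s < 0
  · obtain ⟨a, ha, b, hb, k1, k2, k3⟩ := tri Z (Icc (s + p + 1) p) (Icc (1 - s) p) g s r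
      (by have := cardI (s + p + 1) p (by omega); have := cardI (1 - s) p (by omega); omega)
      ⟨p, by simp; omega, h2⟩ ⟨u - s, by simp; omega, by simpa using u3⟩
      (by intro a ha b hb e; simp at ha hb; omega)
      (by intro a ha a' ha' b hb e; simp at ha hb ha'; omega)
      (by intro a ha b hb b' hb' e; simp at ha hb hb'; omega)
    simp at ha hb
    exact ⟨a, b, by omega, by omega, by omega, by omega, k1, k2, k3, by omega, by omega,
      by omega, by omega, by omega, by omega⟩
  by_cases c2 : s ≤ r + p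
  · have e1 : (Icc 1 p).card - 1 ≤ ((Icc 1 p).erase (s - r)).card := pred_card_le_card_erase
    have e2 := cardI 1 p (by omega)
    have e3 := cardI 1 (p - 1) (by omega)
    obtain ⟨a, ha, b, hb, k1, k2, k3⟩ := tri2 Z ((Icc 1 p).erase (s - r)) (Icc 1 (p - 1)) g s r
      (by omega) (by omega) (by omega)
      (by intro a ha b hb e; simp at ha hb; omega)
    simp at ha hb
    exact ⟨a, b, by omega, by omega, by omega, by omega, k1, k2, k3, by omega, by omega,
      by omega, by omega, by omega, by omega⟩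
  · have e1 : (Icc 1 p).card - 1 ≤ ((Icc 1 p).erase (g + 1 - s)).card := pred_card_le_card_erase
    have e2 := cardI 1 p (by omega)
    obtain ⟨a, ha, b, hb, k1, k2, k3⟩ := tri Z {1} ((Icc 1 p).erase (g + 1 - s)) g s r
      (by simp only [card_singleton]; omega)
      ⟨1, by simp, h1⟩ (free_of_card _ _ _ (by omega))
      (by intro a ha b hb e; simp at ha hb; omega)
      (by intro a ha a' ha' b hb e; simp at ha hb ha'; omega)
      (by intro a ha b hb b' hb' e; simp at ha hb hb'; omega)
    simp at ha hb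
    exact ⟨a, b, by omega, by omega, by omega, by omega, k1, k2, k3, by omega, by omega,
      by omega, by omega, by omega, by omega⟩

lemma card_inj (A B : Finset ℤ) (f : ℤ → ℤ) (h1 : ∀ a ∈ A, f a ∈ B)
    (h2 : ∀ a ∈ A, ∀ b ∈ A, f a = f b → a = b) : A.card ≤ B.card :=
  card_le_card_of_injOn f (fun a ha => h1 a ha) (fun a ha b hb e => h2 a ha b hb e)

lemma L5 (p : ℤ) (Z : Finset ℤ) (s k : ℤ) (hZ : (Z.card : ℤ) ≤ p - 2)
    (h1 : p ∉ Z) (h2 : p + 1 ∉ Z) (s1 : 1 ≤ s) (s2 : s ≤ p - 2) (k1 : 1 ≤ k) (k2 : k ≤ s + 1)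
    (H : ∀ a u, 1 ≤ a → a ≤ p → s + 1 ≤ u → u ≤ s + p → a ∉ Z → u ∉ Z → a ≠ u → a ≠ k → u ≠ k →
      a + u - k ∈ Z) : False := by
  set U := (Icc (s + 1) (s + p)).filter (fun u => u ∉ Z) with hU
  set Lo := Z.filter (fun z => 1 ≤ z ∧ z ≤ s) with hLo
  set Hi := Z.filter (fun z => s + p < z) with hHi
  have mU : ∀ u, u ∈ U ↔ (s + 1 ≤ u ∧ u ≤ s + p) ∧ u ∉ Z := by intro u; simp [hU]
  have mLo : ∀ u, u ∈ Lo ↔ u ∈ Z ∧ 1 ≤ u ∧ u ≤ s := by intro u; simp [hLo]
  have mHi : ∀ u, u ∈ Hi ↔ u ∈ Z ∧ s + p < u := by intro u; simp [hHi]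
  have cnt : Lo.card + Hi.card + 2 ≤ U.card := by
    have e1 := card_filter_add_card_filter_not (s := Icc (s + 1) (s + p)) (fun u => u ∈ Z)
    have e2 := cardI (s + 1) (s + p) (by omega)
    have e3 : (Lo ∪ Hi) ∪ (Icc (s + 1) (s + p)).filter (fun u => u ∈ Z) ⊆ Z := by
      intro z hz
      simp only [mem_union, mLo, mHi, mem_filter] at hz
      tauto
    have e4 := card_le_card e3
    rw [card_union_of_disjoint, card_union_of_disjoint] at e4
    · rw [← hU] at e1; omega
    · rw [disjoint_left]; intro z hz hz'; rw [mLo] at hz; rw [mHi] at hz'; omega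
    · rw [disjoint_left]; intro z hz hz'
      simp only [mem_union, mLo, mHi, mem_filter, mem_Icc] at hz hz'
      omega
  have split : ∀ t : ℤ, (U.filter (fun u => u < t)).card + (U.filter (fun u => ¬ u < t)).card
      = U.card := fun t => card_filter_add_card_filter_not _
  have hiA : p ≤ s + k → (U.filter (fun u => ¬ u < s + k + 1)).card ≤ Hi.card := by
    intro hp
    apply card_inj _ _ (fun u => p + u - k)
    · intro u hu
      simp only [mem_filter, mU] at hu
      rw [mHi]
      exact ⟨H p u (by omega) le_rfl hu.1.1.1 hu.1.1.2 h1 hu.1.2 (by omega) (by omega) (by omega),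
        by omega⟩
    · intro a _ b _ e; omega
  have hiB : (U.filter (fun u => ¬ u < s + k)).card ≤ Hi.card + 1 := by
    by_cases hp : p ≤ s + k
    · have := hiA hp
      have e : U.filter (fun u => ¬ u < s + k) ⊆
          insert (s + k) (U.filter (fun u => ¬ u < s + k + 1)) := by
        intro u hu
        simp only [mem_filter, mem_insert] at hu ⊢
        by_cases e : u = s + k
        · exact Or.inl e
        · exact Or.inr ⟨hu.1, by omega⟩
      have e2 := card_le_card e
      have e3 := card_insert_le (s + k) (U.filter (fun u => ¬ u < s + k + 1))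
      omega
    · have e := sumset (U.filter (fun u => s + k ≤ u ∧ u ≤ p)) (U.filter (fun u => p + 1 ≤ u)) Hi (-k)
        ⟨p, by simp only [mem_filter, mU]; refine ⟨⟨by omega, h1⟩, by omega⟩⟩
        ⟨p + 1, by simp only [mem_filter, mU]; refine ⟨⟨by omega, h2⟩, by omega⟩⟩
        (by
          intro a ha b hb
          simp only [mem_filter, mU] at ha hb
          rw [mHi]
          have := H a b (by omega) (by omega) (by omega) (by omega) ha.1.2 hb.1.2 (by omega)
            (by omega) (by omega)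
          refine ⟨?_, by omega⟩
          have e : -k + a + b = a + b - k := by ring
          rwa [e])
      have e2 : U.filter (fun u => ¬ u < s + k) ⊆
          U.filter (fun u => s + k ≤ u ∧ u ≤ p) ∪ U.filter (fun u => p + 1 ≤ u) := by
        intro u hu
        simp only [mem_filter, mem_union] at hu ⊢
        by_cases e : u ≤ p
        · exact Or.inl ⟨hu.1, by omega, e⟩
        · exact Or.inr ⟨hu.1, by omega⟩
      have e3 := card_le_card e2
      have e4 := card_union_le (U.filter (fun u => s + k ≤ u ∧ u ≤ p)) (U.filter (fun u => p + 1 ≤ u))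
      omega
  by_cases hk : k ∈ U
  · have hk' := (mU k).1 hk
    have ek : k = s + 1 := by omega
    by_cases hp : p ≤ s + k
    · have e1 := hiA hp
      have e2 : ((U.filter (fun u => u < s + k + 1)).erase k).card ≤ Lo.card := by
        apply card_inj _ _ (fun u => 2 * k - u)
        · intro u hu
          simp only [mem_erase, mem_filter, mU] at hu
          rw [mLo]
          refine ⟨?_, by omega, by omega⟩
          by_contra hz
          have := H (2 * k - u) u (by omega) (by omega) (by omega) (by omega) hz hu.2.1.2 (by omega)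
            (by omega) hu.1
          have e : 2 * k - u + u - k = k := by ring
          rw [e] at this
          exact hk'.2 this
        · intro a _ b _ e; omega
      have e3 := pred_card_le_card_erase (s := U.filter (fun u => u < s + k + 1)) (a := k)
      have := split (s + k + 1)
      omega
    · have n1 : k + 1 ∈ Z := by
        by_contra hz
        have := H (k + 1) p (by omega) (by omega) (by omega) (by omega) hz h1 (by omega) (by omega)
          (by omega)
        have e : k + 1 + p - k = p + 1 := by ring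
        rw [e] at this
        exact h2 this
      have n2 : k - 1 ∈ Z := by
        by_contra hz
        have := H (k - 1) (p + 1) (by omega) (by omega) (by omega) (by omega) hz h2 (by omega)
          (by omega) (by omega)
        have e : k - 1 + (p + 1) - k = p := by ring
        rw [e] at this
        exact h1 this
      have e2 : (U.filter (fun u => u < s + k)).card ≤ Lo.card := by
        apply card_inj _ _ (fun u => if u = k then k - 1 else 2 * k - u)
        · intro u hu
          simp only [mem_filter, mU] at hu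
          rw [mLo]
          split_ifs with c
          · exact ⟨n2, by omega, by omega⟩
          refine ⟨?_, by omega, by omega⟩
          by_contra hz
          have := H (2 * k - u) u (by omega) (by omega) (by omega) (by omega) hz hu.1.2 (by omega)
            (by omega) c
          have e : 2 * k - u + u - k = k := by ring
          rw [e] at this
          exact hk'.2 this
        · intro a ha b hb e
          simp only [mem_filter, mU] at ha hb
          have a1 : a ≠ k + 1 := fun h => ha.1.2 (h ▸ n1)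
          have b1 : b ≠ k + 1 := fun h => hb.1.2 (h ▸ n1)
          split_ifs at e <;> omega
      have := split (s + k)
      omega
  · have ex : ∃ n : ℕ, (1 + (n : ℤ) ∉ Z ∨ 1 + (n : ℤ) = k) := ⟨(k - 1).toNat, Or.inr (by omega)⟩
    classical
    set n := Nat.find ex with hn
    have n1 := Nat.find_spec ex
    rw [← hn] at n1
    have n2 : ∀ z : ℤ, 1 ≤ z → z < 1 + n → z ∈ Z ∧ z ≠ k := by
      intro z z1 z2
      have := Nat.find_min ex (m := (z - 1).toNat) (by rw [← hn]; omega)
      have e : 1 + (((z - 1).toNat : ℕ) : ℤ) = z := by omega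
      rw [e] at this
      push Not at this
      exact this
    have n3 : 1 + (n : ℤ) ≤ k := by
      by_contra hc
      exact (n2 k k1 (by omega)).2 rfl
    have e2 : (U.filter (fun u => u < s + k)).card ≤ Lo.card := by
      apply card_inj _ _ (fun u => if u ≤ s + (k - 1 - n) then u - (k - 1 - n) else u - s - (k - 1 - n))
      · intro u hu
        have hu0 : u ≠ k := fun h => hk (h ▸ (mem_filter.1 hu).1)
        simp only [mem_filter, mU] at hu
        rw [mLo]
        split_ifs with c
        · refine ⟨?_, by omega, by omega⟩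
          have := H (1 + n) u (by omega) (by omega) (by omega) (by omega)
            (by rcases n1 with h | h; exact h; omega) hu.1.2 (by omega) (by omega) hu0
          have e : 1 + (n : ℤ) + u - k = u - (k - 1 - n) := by ring
          rwa [e] at this
        · exact ⟨(n2 _ (by omega) (by omega)).1, by omega, by omega⟩
      · intro a ha b hb e
        have ha0 : a ≠ k := fun h => hk (h ▸ (mem_filter.1 ha).1)
        have hb0 : b ≠ k := fun h => hk (h ▸ (mem_filter.1 hb).1)
        simp only [mem_filter, mU] at ha hb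
        split_ifs at e <;> omega
    have := split (s + k)
    omega

lemma L0 (p : ℤ) (Z : Finset ℤ) (lam s r : ℤ) (hp : 3 ≤ p) (hZ : (Z.card : ℤ) ≤ p - 2)
    (h1 : p ∉ Z) (h2 : p + 1 ∉ Z) (hl : lam ≤ 1) (hr : -1 ≤ r) (hx : ¬ (r = -1 ∧ s = 0))
    (hu : ∃ u, lam ≤ u ∧ s + 1 ≤ u ∧ u ≤ s + p ∧ u ∉ Z) : Sol p Z lam 0 s r := by
  have eI := cardI 1 p (by omega)
  by_cases c1 : s < 0
  · have key : ∃ b1, 2 ≤ b1 ∧ b1 ≤ p ∧ s + b1 ≤ 1 ∧ lam ≤ s + b1 ∧ ∃ b ∈ Icc b1 p, s + b ∉ Z := by
      obtain ⟨u, u0, u1, u2, u3⟩ := hu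
      have e3 := cardI 2 p (by omega)
      obtain ⟨b, hb, hb'⟩ := free_of_card Z (Icc 2 p) s (by omega)
      simp only [mem_Icc] at hb
      by_cases c : 1 ≤ u
      · exact ⟨1 - s, by omega, by omega, by omega, by omega, u - s, by simp; omega,
          by simpa using u3⟩
      by_cases c' : s + 2 ≤ u
      · exact ⟨u - s, by omega, by omega, by omega, by omega, u - s, by simp; omega,
          by simpa using u3⟩
      · exact ⟨2, by omega, by omega, by omega, by omega, b, by simp; omega, hb'⟩
    obtain ⟨b1, q1, q2, q3, q4, q5⟩ := key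
    obtain ⟨a, ha, b, hb, k1, k2, k3⟩ := tri Z (Icc (p - b1 + 2) p) (Icc b1 p) 0 s r
      (by have := cardI (p - b1 + 2) p (by omega); have := cardI b1 p (by omega); omega)
      ⟨p, by simp; omega, by simpa using h1⟩ q5
      (by intro a ha b hb e; simp at ha hb; omega)
      (by intro a ha a' ha' b hb e; simp at ha hb ha'; omega)
      (by intro a ha b hb b' hb' e; simp at ha hb hb'; omega)
    simp at ha hb
    exact ⟨a, b, by omega, by omega, by omega, by omega, k1, k2, k3, by omega, by omega,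
      by omega, by omega, by omega, by omega⟩
  by_cases c2 : s = 0
  · have e3 := cardI 1 (p - 1) (by omega)
    obtain ⟨a, ha, b, hb, k1, k2, k3⟩ := tri Z (Icc 1 (p - 1)) {p} 0 s r
      (by simp only [card_singleton]; omega)
      (free_of_card _ _ _ (by omega)) ⟨p, by simp, by simpa [c2] using h1⟩
      (by intro a ha b hb e; simp at ha hb; omega)
      (by intro a ha a' ha' b hb e; simp at ha hb ha'; omega)
      (by intro a ha b hb b' hb' e; simp at ha hb hb'; omega)
    simp at ha hb
    exact ⟨a, b, by omega, by omega, by omega, by omega, k1, k2, k3, by omega, by omega,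
      by omega, by omega, by omega, by omega⟩
  by_cases c3 : s ≤ r
  · have key : ∃ b, 1 ≤ b ∧ b ≤ p ∧ p + 1 ≤ s + b ∧ s + b ∉ Z := by
      by_cases c : s ≤ p
      · exact ⟨p + 1 - s, by omega, by omega, by omega, by simpa using h2⟩
      · obtain ⟨b, hb, hb'⟩ := free_of_card Z (Icc 1 p) s (by omega)
        simp only [mem_Icc] at hb
        exact ⟨b, by omega, by omega, by omega, hb'⟩
    obtain ⟨b0, q1, q2, q3, q4⟩ := key
    obtain ⟨a, ha, b, hb, k1, k2, k3⟩ := tri Z (Icc 1 p) {b0} 0 s r
      (by simp only [card_singleton]; omega)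
      ⟨p, by simp; omega, by simpa using h1⟩ ⟨b0, by simp, q4⟩
      (by intro a ha b hb e; simp at ha hb; omega)
      (by intro a ha a' ha' b hb e; simp at ha hb ha'; omega)
      (by intro a ha b hb b' hb' e; simp at ha hb hb'; omega)
    simp at ha hb
    exact ⟨a, b, by omega, by omega, by omega, by omega, k1, k2, k3, by omega, by omega,
      by omega, by omega, by omega, by omega⟩
  by_cases c4 : p - 1 ≤ s
  · have e1 : (Icc 1 p).card - 1 ≤ ((Icc 1 p).erase (s - r)).card := pred_card_le_card_erase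
    have e3 := cardI 2 p (by omega)
    obtain ⟨a, ha, b, hb, k1, k2, k3⟩ := tri2 Z ((Icc 1 p).erase (s - r)) (Icc 2 p) 0 s r
      (by omega) (by omega) (by omega)
      (by intro a ha b hb e; simp at ha hb; omega)
    simp at ha hb
    exact ⟨a, b, by omega, by omega, by omega, by omega, k1, k2, k3, by omega, by omega,
      by omega, by omega, by omega, by omega⟩
  by_contra hn
  refine L5 p Z s (s - r) hZ h1 h2 (by omega) (by omega) (by omega) (by omega) ?_
  intro a u a1 a2 u1 u2 a3 u3 n1 n2 n3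
  by_contra hz
  apply hn
  refine ⟨a, u - s, a1, a2, by omega, by omega, by simpa using a3, by simpa using u3, ?_,
    by omega, by omega, by omega, by omega, by omega, by omega⟩
  have e : r + a + (u - s) = a + u - (s - r) := by ring
  rwa [e]

lemma L1 (p : ℤ) (Z : Finset ℤ) (g s r : ℤ) (hp : 3 ≤ p) (hZ : (Z.card : ℤ) ≤ p - 2)
    (h1 : g + p ∉ Z) (h2 : g + p + 1 ∉ Z) (hg : 0 ≤ g) (hr : g - 1 ≤ r)
    (hx : ¬ (r = g - 1 ∧ s = g)) (hu : ∃ u, 1 ≤ u ∧ u ≤ s + p ∧ u ∉ Z) : Sol p Z 1 g s r := by
  have m : ∀ z, z ∈ Z.image (fun z => z - g) ↔ g + z ∈ Z := by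
    intro z
    simp only [mem_image]
    constructor
    · rintro ⟨a, ha, rfl⟩
      simpa using ha
    · intro h
      exact ⟨_, h, by ring⟩
  have hc : (Z.image (fun z => z - g)).card = Z.card :=
    card_image_of_injective _ (sub_left_injective)
  obtain ⟨a, b, q1, q2, q3, q4, q5, q6, q7, q8, q9, q10, q11, q12, q13⟩ :=
    L0 p (Z.image (fun z => z - g)) (1 - g) (s - g) (r - g) hp (by omega)
      (by rw [m]; exact h1) (by rw [m, ← add_assoc]; exact h2) (by omega) (by omega) (by omega)
      (by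
        obtain ⟨u, u1, u2, u3⟩ := hu
        by_cases c : s + 1 ≤ u
        · exact ⟨u - g, by omega, by omega, by omega, by rw [m]; simpa using u3⟩
        · have eI := cardI 1 p (by omega)
          obtain ⟨b, hb, hb'⟩ := free_of_card Z (Icc 1 p) s (by omega)
          simp only [mem_Icc] at hb
          refine ⟨s + b - g, by omega, by omega, by omega, ?_⟩
          rw [m]; simpa using hb')
  rw [m] at q5 q6 q7
  refine ⟨a, b, q1, q2, q3, q4, by simpa using q5, ?_, ?_, by omega, by omega, by omega,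
    by omega, by omega, by omega⟩
  · have e : s + b = g + (s - g + b) := by ring
    rwa [e]
  · have e : r + a + b = g + (r - g + a + b) := by ring
    rwa [e]

end Pool.Agent.H.MP_033e98_co
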