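import Mathlib
import Pool.Agent.H.MP_033e98_co.Z
import Pool.Agent.H.MP_033e98_co.R

namespace Pool.Agent.H.MP_033e98_co

open Finset

def Inv (p : ℤ) (Z : Finset ℤ) (s : ℤ) (n : ℕ) : Prop :=
  ((Z.filter (fun z => s < z)).card : ℤ) + s ≤ p - 1 ∧
    n + 1 ≤ ((Icc 1 s).filter (fun z => z ∉ Z)).card

lemma stepZ (p w1 w2 : ℤ) (hw1 : p ≤ w1) (hw2 : p ≤ w2) (Z : Finset ℤ) (s : ℤ) (n : ℕ) (S : ℤ)
    (h : Inv p Z s (n + 1)) (hS : s ≤ S) :
    ∃ t s', t ∉ Z ∧ 1 ≤ t ∧ t ≠ w1 ∧ t ≠ w2 ∧ 1 ≤ t + p - S ∧ t + p - S ≤ p ∧ s' ≤ t + p - S ∧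
      s' ≤ s ∧ s' < t ∧ Inv p (insert t Z) s' n := by
  obtain ⟨h1, h2⟩ := h
  set F := (Icc 1 s).filter (fun z => z ∉ Z) with hF
  have mF : ∀ z, z ∈ F ↔ (1 ≤ z ∧ z ≤ s) ∧ z ∉ Z := by intro z; simp [hF]
  have hne : F.Nonempty := card_pos.1 (by omega)
  set m := F.max' hne with hm
  have m1 := (mF m).1 (max'_mem F hne)
  have m2 : ∀ z ∈ F, z ≤ m := fun z hz => le_max' F z hz
  have m3 : 2 ≤ m := by
    by_contra hc
    have : F ⊆ {1} := by
      intro z hz
      have := m2 z hz
      have := (mF z).1 hz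
      simp; omega
    have := card_le_card this
    simp at this
    omega
  have g1 : ((Z.filter (fun z => m < z)).card : ℤ) + m ≤ p - 1 := by
    have : Z.filter (fun z => m < z) ⊆ Z.filter (fun z => s < z) ∪ Icc (m + 1) s := by
      intro z hz
      simp only [mem_filter, mem_union, mem_Icc] at hz ⊢
      by_cases c : s < z
      · exact Or.inl ⟨hz.1, c⟩
      · right; omega
    have e1 := card_le_card this
    have e2 := card_union_le (Z.filter (fun z => s < z)) (Icc (m + 1) s)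
    have e3 := cardI (m + 1) s (by omega)
    omega
  have fin : ∀ t, m ≤ t → Inv p (insert t Z) (m - 1) n := by
    intro t ht
    constructor
    · have : (insert t Z).filter (fun z => m - 1 < z) ⊆ insert t (Z.filter (fun z => m < z)) := by
        intro z hz
        simp only [mem_filter, mem_insert] at hz ⊢
        rcases hz.1 with e | e
        · exact Or.inl e
        · right
          refine ⟨e, ?_⟩
          have : z ≠ m := fun h => m1.2 (h ▸ e)
          omega
      have e1 := card_le_card this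
      have e2 := card_insert_le t (Z.filter (fun z => m < z))
      omega
    · have : F.erase m ⊆ (Icc 1 (m - 1)).filter (fun z => z ∉ insert t Z) := by
        intro z hz
        rw [mem_erase] at hz
        have a1 := m2 z hz.2
        have a2 := (mF z).1 hz.2
        simp only [mem_filter, mem_Icc, mem_insert, not_or]
        exact ⟨by omega, by omega, a2.2⟩
      have e1 := card_le_card this
      rw [card_erase_of_mem (max'_mem F hne)] at e1
      omega
  by_cases c : S ≤ p + 1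
  · exact ⟨m, m - 1, m1.2, by omega, by omega, by omega, by omega, by omega, by omega, by omega,
      by omega, fin m le_rfl⟩
  · have e1 := cardI (S + m - 1 - p) S (by omega)
    have e2 := card_insert_le w1 (insert w2 (Z.filter (fun z => m < z)))
    have e3 := card_insert_le w2 (Z.filter (fun z => m < z))
    obtain ⟨t, ht, ht'⟩ := free_of_card (insert w1 (insert w2 (Z.filter (fun z => m < z))))
      (Icc (S + m - 1 - p) S) 0 (by omega)
    simp only [zero_add, mem_insert, mem_filter, not_or, mem_Icc] at ht ht'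
    exact ⟨t, m - 1, fun h => ht'.2.2 ⟨h, by omega⟩, by omega, ht'.1, ht'.2.1, by omega, by omega,
      by omega, by omega, by omega, fin t (by omega)⟩

lemma initZ (p : ℤ) (Z : Finset ℤ) (n : ℕ) (h2 : (Z.card : ℤ) + n ≤ p - 2) :
    ∀ s0 : ℕ, p - 1 ≤ ((Z.filter (fun z => (s0 : ℤ) < z)).card : ℤ) + s0 →
      ∃ s ≤ (s0 : ℤ), Inv p Z s n := by
  intro s0
  induction s0 with
  | zero =>
    intro h
    have := card_filter_le Z (fun z => ((0 : ℕ) : ℤ) < z)
    omega
  | succ k ih =>
    intro h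
    by_cases c : ((Z.filter (fun z => ((k + 1 : ℕ) : ℤ) < z)).card : ℤ) + (k + 1 : ℕ) ≤ p - 1
    · refine ⟨_, le_rfl, c, ?_⟩
      have e1 := card_filter_add_card_filter_not (s := Icc (1 : ℤ) (k + 1 : ℕ)) (fun z => z ∈ Z)
      have e2 := cardI 1 (k + 1 : ℕ) (by omega)
      have e3 := card_filter_add_card_filter_not (s := Z) (fun z => ((k + 1 : ℕ) : ℤ) < z)
      have e4 : (Icc (1 : ℤ) (k + 1 : ℕ)).filter (fun z => z ∈ Z) ⊆
          Z.filter (fun z => ¬ ((k + 1 : ℕ) : ℤ) < z) := by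
        intro z hz
        simp only [mem_filter, mem_Icc] at hz ⊢
        exact ⟨hz.2, by omega⟩
      have e5 := card_le_card e4
      omega
    · have e : Z.filter (fun z => ((k + 1 : ℕ) : ℤ) < z) ⊆ Z.filter (fun z => (k : ℤ) < z) := by
        intro z hz
        simp only [mem_filter] at hz ⊢
        exact ⟨hz.1, by omega⟩
      have e2 := card_le_card e
      obtain ⟨s, hs, hi⟩ := ih (by omega)
      exact ⟨s, by omega, hi⟩

variable {V : Type*} [Fintype V] [DecidableEq V] {G : SimpleGraph V} [DecidableRel G.Adj] {r : V}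

namespace Rt

variable (T : Rt G r)

def val (p : ℤ) (x : V → ℤ) (v : V) : ℤ := x v + T.S x v - p

omit [DecidableRel G.Adj] in
lemma greedy (p w1 w2 : ℤ) (hw1 : p ≤ w1) (hw2 : p ≤ w2) (y : V) :
    ∀ (n : ℕ) (P D : Finset V) (x : V → ℤ) (s : ℤ), P.card = n → y ∉ P → Disjoint P D →
      (∀ v ∈ D, ∀ w ∈ T.ch v, w ∉ P) → (∀ w, 0 ≤ x w) → Set.InjOn (T.val p x) D →
      (∀ v ∈ D, 1 ≤ T.val p x v ∧ T.val p x v ≠ w1 ∧ T.val p x v ≠ w2) →
      Inv p (D.image (T.val p x)) s n →
      (∀ v ∈ P, (∀ w ∈ T.ch v, w ∉ P) → s ≤ T.S x v) →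
      ((∀ w ∈ T.ch y, w ∉ P) → s ≤ T.S x y ∨ (1 ≤ T.S x y ∧ T.S x y ∉ D.image (T.val p x))) →
      ∃ x' : V → ℤ, (∀ w, w ∉ P → x' w = x w) ∧ (∀ w ∈ P, 1 ≤ x' w ∧ x' w ≤ p) ∧
        Set.InjOn (T.val p x') (D ∪ P : Finset V) ∧
        (∀ v ∈ D ∪ P, 1 ≤ T.val p x' v ∧ T.val p x' v ≠ w1 ∧ T.val p x' v ≠ w2) ∧
        ∃ u, 1 ≤ u ∧ u ≤ T.S x' y ∧ u ∉ (D ∪ P).image (T.val p x') := by
  intro n
  induction n with
  | zero =>
    intro P D x s hP _ _ _ _ hinj hval hI _ hy
    rw [card_eq_zero] at hP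
    subst hP
    refine ⟨x, fun _ _ => rfl, by simp, by simpa using hinj, by simpa using hval, ?_⟩
    rw [union_empty]
    rcases hy (by simp) with h | h
    · obtain ⟨u, hu⟩ := card_pos.1 (lt_of_lt_of_le (Nat.succ_pos 0) hI.2)
      simp only [mem_filter, mem_Icc] at hu
      exact ⟨u, hu.1.1, by omega, hu.2⟩
    · exact ⟨_, h.1, le_rfl, h.2⟩
  | succ n ih =>
    intro P D x s hP hyP hPD hcl hx hinj hval hI hmin hy
    obtain ⟨v, hv, hmax⟩ := exists_max_image P T.rk (card_pos.1 (by omega))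
    have hvc : ∀ w ∈ T.ch v, w ∉ P := by
      intro w hw hwP
      have := hmax w hwP
      have := T.rk_ch hw
      omega
    obtain ⟨t, s', t1, t2, t3, t4, t5, t6, t7, t8, t9, t10⟩ :=
      stepZ p w1 w2 hw1 hw2 _ s n (T.S x v) hI (hmin v hv hvc)
    set x1 := Function.update x v (t + p - T.S x v) with hx1
    have e0 : ∀ w, w ≠ v → x1 w = x w := fun w hw => Function.update_of_ne hw _ _
    have e1 : x1 v = t + p - T.S x v := Function.update_self _ _ _
    have eS : ∀ u, v ∉ T.ch u → T.S x1 u = T.S x u := fun u hu =>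
      T.S_congr (fun w hw => e0 w (fun h => hu (h ▸ hw)))
    have hvD : v ∉ D := disjoint_left.1 hPD hv
    have eD : ∀ u ∈ D, T.val p x1 u = T.val p x u := by
      intro u hu
      rw [val, val, eS u (fun h => hcl u hu v h hv), e0 u (fun h => hvD (h ▸ hu))]
    have ev : T.val p x1 v = t := by
      rw [val, eS v (fun h => hvc v h hv), e1]; ring
    have eI : (insert v D).image (T.val p x1) = insert t (D.image (T.val p x)) := by
      rw [image_insert, ev, image_congr (fun u hu => eD u hu)]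
    have x1pos : ∀ w, 0 ≤ x1 w := by
      intro w
      by_cases c : w = v
      · rw [c, e1]; omega
      · rw [e0 w c]; exact hx w
    have low : ∀ u, (∀ w ∈ T.ch u, w ∉ P.erase v) → s' ≤ T.S x1 u ∨
        ((∀ w ∈ T.ch u, w ∉ P) ∧ T.S x1 u = T.S x u) := by
      intro u hu
      by_cases c : v ∈ T.ch u
      · left
        have := T.le_S (fun w _ => x1pos w) c
        omega
      · right
        refine ⟨fun w hw hwP => hu w hw (mem_erase.2 ⟨fun h => c (h ▸ hw), hwP⟩), eS u c⟩
    obtain ⟨x', a1, a2, a3, a4, a5⟩ := ih (P.erase v) (insert v D) x1 s'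
      (by rw [card_erase_of_mem hv]; omega) (fun h => hyP (mem_of_mem_erase h))
      (by
        rw [disjoint_insert_right]
        exact ⟨notMem_erase _ _, hPD.mono_left (erase_subset _ _)⟩)
      (by
        intro u hu w hw hwP
        rcases mem_insert.1 hu with rfl | hu
        · exact hvc w hw (mem_of_mem_erase hwP)
        · exact hcl u hu w hw (mem_of_mem_erase hwP))
      x1pos
      (by
        rw [coe_insert, Set.injOn_insert (by simpa using hvD)]
        refine ⟨fun a ha b hb e => hinj ha hb (by rw [← eD a ha, ← eD b hb, e]), ?_⟩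
        rintro ⟨u, hu, e⟩
        rw [ev, eD u hu] at e
        exact t1 (mem_image.2 ⟨u, hu, e⟩))
      (by
        intro u hu
        rcases mem_insert.1 hu with rfl | hu
        · rw [ev]; exact ⟨t2, t3, t4⟩
        · rw [eD u hu]; exact hval u hu)
      (by rw [eI]; exact t10)
      (by
        intro u hu hc
        rcases low u hc with h | h
        · exact h
        · have := hmin u (mem_of_mem_erase hu) h.1
          omega)
      (by
        intro hc
        rcases low y hc with h | h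
        · exact Or.inl h
        · rcases hy h.1 with k | k
          · left; omega
          · by_cases c : s' ≤ T.S x1 y
            · exact Or.inl c
            · right
              rw [eI, h.2]
              refine ⟨k.1, ?_⟩
              rw [mem_insert, not_or]
              exact ⟨by omega, k.2⟩)
    have eU : insert v D ∪ P.erase v = D ∪ P := by
      ext u
      simp only [mem_union, mem_insert, mem_erase]
      by_cases c : u = v
      · simp [c, hv]
      · simp [c]
    rw [eU] at a3 a4 a5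
    refine ⟨x', ?_, ?_, a3, a4, a5⟩
    · intro w hw
      rw [a1 w (fun h => hw (mem_of_mem_erase h)), e0 w (fun h => hw (h ▸ hv))]
    · intro w hw
      by_cases c : w = v
      · rw [c, a1 v (notMem_erase _ _), e1]; omega
      · exact a2 w (mem_erase.2 ⟨c, hw⟩)

def Dn (G : SimpleGraph V) [DecidableRel G.Adj] (r c y : V) : Finset V :=
  univ.filter (fun v => ¬ Leaf G v ∧ v ≠ r ∧ v ≠ c ∧ v ≠ y)

omit T in
lemma mem_Dn {c y v : V} : v ∈ Dn G r c y ↔ ¬ Leaf G v ∧ v ≠ r ∧ v ≠ c ∧ v ≠ y := by simp [Dn]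

structure Post (p : ℤ) (c y : V) (w1 w2 : ℤ) (x : V → ℤ) : Prop where
  rng : ∀ v, v ≠ r → v ≠ c → v ≠ y → 1 ≤ x v ∧ x v ≤ p
  lf : ∀ u v, Leaf G u → Leaf G v → x u = x v → u = v
  inj : Set.InjOn (T.val p x) (Dn G r c y)
  vl : ∀ v ∈ Dn G r c y, 1 ≤ T.val p x v ∧ T.val p x v ≠ w1 ∧ T.val p x v ≠ w2
  fr : ∃ u, 1 ≤ u ∧ u ≤ T.S x y ∧ u ∉ (Dn G r c y).image (T.val p x)

structure Base (p : ℕ) (c y : V) : Prop where
  p3 : 3 ≤ p
  hr : ¬ Leaf G r
  hc : c ∈ T.ch r
  hy : y ∈ T.ch r
  cy : c ≠ y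
  ic : ¬ Leaf G c
  iy : ¬ Leaf G y
  nl : (univ.filter (fun v => Leaf G v)).card = p
  ni : (univ.filter (fun v => ¬ Leaf G v)).card ≤ p + 1

variable {T}

lemma Base.card {p : ℕ} {c y : V} (B : T.Base p c y) : ((Dn G r c y).card : ℤ) ≤ p - 2 := by
  have h1 := (T.mem_ch.1 B.hc).1
  have h2 := (T.mem_ch.1 B.hy).1
  have e : insert r (insert c (insert y (Dn G r c y))) ⊆ univ.filter (fun v => ¬ Leaf G v) := by
    intro v hv
    simp only [mem_insert, mem_Dn, mem_filter, mem_univ, true_and] at hv ⊢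
    rcases hv with rfl | rfl | rfl | h
    exacts [B.hr, B.ic, B.iy, h.1]
  have e2 := card_le_card e
  rw [card_insert_of_notMem (by simp [mem_Dn, h1.symm, h2.symm]),
    card_insert_of_notMem (by simp [mem_Dn, B.cy]), card_insert_of_notMem (by simp [mem_Dn])] at e2
  have := B.ni
  omega

def RR (T : Rt G r) (c y : V) (x : V → ℤ) : ℤ := ∑ w ∈ ((T.ch r).erase c).erase y, x w

lemma finish {p : ℕ} {c y : V} (B : T.Base p c y) {w1 w2 : ℤ} {x : V → ℤ}
    (P : T.Post p c y w1 w2 x)
    (h : Sol p ((Dn G r c y).image (T.val p x)) 1 (T.S x c - p) (T.S x y - p) (T.RR c y x - p)) :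
    Good G p := by
  obtain ⟨a, b, q1, q2, q3, q4, q5, q6, q7, q8, q9, q10, q11, q12, q13⟩ := h
  have hc := T.mem_ch.1 B.hc
  have hy := T.mem_ch.1 B.hy
  set x1 := Function.update (Function.update x c a) y b with hx1
  have e0 : ∀ w, w ≠ c → w ≠ y → x1 w = x w := fun w h1 h2 => by
    rw [hx1, Function.update_of_ne h2, Function.update_of_ne h1]
  have ec : x1 c = a := by rw [hx1, Function.update_of_ne B.cy, Function.update_self]
  have ey : x1 y = b := by rw [hx1, Function.update_self]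
  have eS : ∀ u, u ≠ r → T.S x1 u = T.S x u := by
    intro u hu
    refine T.S_congr (fun w hw => e0 w ?_ ?_)
    · rintro rfl; exact hu ((T.mem_ch.1 hw).2.symm.trans hc.2)
    · rintro rfl; exact hu ((T.mem_ch.1 hw).2.symm.trans hy.2)
  have Wd : ∀ v ∈ Dn G r c y, T.W x1 v = T.val p x v + p := by
    intro v hv
    rw [mem_Dn] at hv
    rw [W, val, if_neg hv.2.1, eS v hv.2.1, e0 v hv.2.2.1 hv.2.2.2]; ring
  have Wc : T.W x1 c = T.S x c - p + a + p := by rw [W, if_neg hc.1, eS c hc.1, ec]; ring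
  have Wy : T.W x1 y = T.S x y - p + b + p := by rw [W, if_neg hy.1, eS y hy.1, ey]; ring
  have Wr : T.W x1 r = T.RR c y x - p + a + b + p := by
    rw [W, if_pos rfl, S, ← add_sum_erase _ _ B.hc,
      ← add_sum_erase _ _ (mem_erase.2 ⟨B.cy.symm, B.hy⟩), ec, ey, RR,
      sum_congr rfl (fun w hw => e0 w (mem_erase.1 (mem_erase.1 hw).2).1 (mem_erase.1 hw).1)]
    ring
  have cs : ∀ v, ¬ Leaf G v → v = r ∨ v = c ∨ v = y ∨ v ∈ Dn G r c y := by
    intro v hv
    rw [mem_Dn]; tauto
  have nz : ∀ z, z ∉ (Dn G r c y).image (T.val p x) → ∀ v ∈ Dn G r c y, T.val p x v ≠ z :=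
    fun z hz v hv e => hz (mem_image.2 ⟨v, hv, e⟩)
  refine T.fin0 p B.hr x1 ?_ ?_ ?_ ?_
  · intro v hv
    by_cases c1 : v = c
    · rw [c1, ec]; exact ⟨q1, q2⟩
    by_cases c2 : v = y
    · rw [c2, ey]; exact ⟨q3, q4⟩
    rw [e0 v c1 c2]; exact P.rng v hv c1 c2
  · intro u v hu hv e
    rw [e0 u (fun h => B.ic (h ▸ hu)) (fun h => B.iy (h ▸ hu)),
      e0 v (fun h => B.ic (h ▸ hv)) (fun h => B.iy (h ▸ hv))] at e
    exact P.lf u v hu hv e
  · intro v hv
    rcases cs v hv with h | h | h | h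
    · rw [h, Wr]; omega
    · rw [h, Wc]; omega
    · rw [h, Wy]; omega
    · rw [Wd v h]; have := (P.vl v h).1; omega
  · intro u v hu hv e
    rcases cs u hu with h | h | h | h <;> rcases cs v hv with k | k | k | k
    all_goals first
      | (rw [h, k]; done)
      | (exfalso; rw [h, k] at e; omega)
      | (exfalso; rw [h, Wd v k] at e; have := nz _ q5 v k; have := nz _ q6 v k
         have := nz _ q7 v k; omega)
      | (exfalso; rw [k, Wd u h] at e; have := nz _ q5 u h; have := nz _ q6 u h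
         have := nz _ q7 u h; omega)
      | (rw [Wd u h, Wd v k] at e; exact P.inj h k (by omega))

lemma fin1 {p : ℕ} {c y : V} (B : T.Base p c y) {x : V → ℤ}
    (P : T.Post p c y (T.S x c) (T.S x c + 1) x) (h1 : (p : ℤ) ≤ T.S x c)
    (h2 : T.S x c - 1 ≤ T.RR c y x) (h3 : ¬ (T.RR c y x = T.S x c - 1 ∧ T.S x y = T.S x c)) :
    Good G p := by
  have := B.p3
  refine finish B P (L1 p _ _ _ _ (by omega) (le_trans (by exact_mod_cast card_image_le) B.card)
    ?_ ?_ (by omega) (by omega) (by omega) (by simpa using P.fr))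
  · intro h
    obtain ⟨v, hv, e⟩ := mem_image.1 h
    have := P.vl v hv
    omega
  · intro h
    obtain ⟨v, hv, e⟩ := mem_image.1 h
    have := P.vl v hv
    omega

lemma fin2 {p : ℕ} {c y : V} (B : T.Base p c y) {x : V → ℤ}
    (P : T.Post p c y (T.S x c - p + 1) (T.S x c) x) (h1 : (p : ℤ) - 1 ≤ T.RR c y x)
    (h2 : T.RR c y x + 2 * p - 1 ≤ T.S x c) : Good G p := by
  have := B.p3
  refine finish B P (L2 p _ _ _ _ (by omega) (le_trans (by exact_mod_cast card_image_le) B.card)
    ?_ ?_ (by omega) (by omega) (by simpa using P.fr))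
  · intro h
    obtain ⟨v, hv, e⟩ := mem_image.1 h
    have := P.vl v hv
    omega
  · intro h
    obtain ⟨v, hv, e⟩ := mem_image.1 h
    have := P.vl v hv
    omega

end Rt

end Pool.Agent.H.MP_033e98_co
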