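import Mathlib
import Pool.Agent.H.MP_033e98_co.G

namespace Pool.Agent.H.MP_033e98_co

open Finset

variable {V : Type*} [Fintype V] [DecidableEq V] {G : SimpleGraph V} [DecidableRel G.Adj] {r : V}

namespace Rt

variable {T : Rt G r}

lemma core {p : ℕ} {c y : V} (B : T.Base p c y) (w1 w2 : ℤ) (hw1 : (p : ℤ) ≤ w1)
    (hw2 : (p : ℤ) ≤ w2) (x0 : V → ℤ) (Q0 : Finset V)
    (l1 : ∀ v, Leaf G v → 1 ≤ x0 v ∧ x0 v ≤ p)
    (l2 : ∀ u v, Leaf G u → Leaf G v → x0 u = x0 v → u = v)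
    (q1 : ∀ v ∈ Q0, v ∈ Dn G r c y) (q2 : ∀ v ∈ Q0, 1 ≤ x0 v ∧ x0 v ≤ p)
    (q3 : ∀ v ∈ Q0, ∀ w ∈ T.ch v, Leaf G w ∨ w ∈ Q0)
    (q4 : ∀ w ∈ Q0, T.par w ∈ Q0 ∨ T.par w = r ∨ T.par w = c)
    (q5 : Set.InjOn (T.val p x0) Q0)
    (q6 : ∀ v ∈ Q0, (p : ℤ) - 1 - Q0.card < T.val p x0 v ∧ T.val p x0 v ≠ w1 ∧ T.val p x0 v ≠ w2)
    (hb : ∀ v, v ≠ r → v ≠ c → v ∉ Q0 → (∀ w ∈ T.ch v, Leaf G w) → 2 ≤ (T.ch v).card →
      (p : ℤ) - 1 - Q0.card ≤ T.S x0 v) :
    ∃ x, T.Post p c y w1 w2 x ∧ ∀ v, Leaf G v ∨ v ∈ Q0 → x v = x0 v := by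
  have hD := B.card
  have hQ : Q0.card ≤ (Dn G r c y).card := card_le_card q1
  have hc := T.mem_ch.1 B.hc
  have hy := T.mem_ch.1 B.hy
  set s0 : ℤ := (p : ℤ) - 1 - Q0.card with hs0
  set Q1 := (Dn G r c y).filter (fun v => v ∉ Q0 ∧ (∀ w ∈ T.ch v, Leaf G w) ∧ (T.ch v).card = 1 ∧
    T.S x0 v ≤ s0) with hQ1
  have mQ1 : ∀ v, v ∈ Q1 ↔ v ∈ Dn G r c y ∧ v ∉ Q0 ∧ (∀ w ∈ T.ch v, Leaf G w) ∧
    (T.ch v).card = 1 ∧ T.S x0 v ≤ s0 := fun v => mem_filter
  set x1 : V → ℤ := fun v => if Leaf G v ∨ v ∈ Q0 then x0 v else if v ∈ Q1 then p else 0 with hx1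
  have e0 : ∀ v, Leaf G v ∨ v ∈ Q0 → x1 v = x0 v := fun v hv => if_pos hv
  have e1 : ∀ v ∈ Q1, x1 v = p := by
    intro v hv
    have := (mQ1 v).1 hv
    have h2 := (mem_Dn.1 this.1).1
    simp only [hx1]
    rw [if_neg (by tauto), if_pos hv]
  have xpos : ∀ v, 0 ≤ x1 v := by
    intro v
    simp only [hx1]
    split_ifs with h1 h2
    · rcases h1 with h | h
      · have := l1 v h; omega
      · have := q2 v h; omega
    · omega
    · omega
  have v0 : ∀ v ∈ Q0, T.val p x1 v = T.val p x0 v := by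
    intro v hv
    rw [val, val, e0 v (Or.inr hv), T.S_congr (fun w hw => e0 w (q3 v hv w hw))]
  have sl : ∀ v, (∀ w ∈ T.ch v, Leaf G w) → T.S x1 v = T.S x0 v := fun v hv =>
    T.S_congr (fun w hw => e0 w (Or.inl (hv w hw)))
  have v1 : ∀ v ∈ Q1, T.val p x1 v = T.S x0 v := by
    intro v hv
    rw [val, e1 v hv, sl v ((mQ1 v).1 hv).2.2.1]; ring
  have sing : ∀ v, (∀ w ∈ T.ch v, Leaf G w) → (T.ch v).card = 1 →
      ∃ l, Leaf G l ∧ T.par l = v ∧ T.S x0 v = x0 l := by
    intro v h1 h2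
    obtain ⟨l, hl⟩ := card_eq_one.1 h2
    have : l ∈ T.ch v := by rw [hl]; simp
    exact ⟨l, h1 l this, (T.mem_ch.1 this).2, by rw [S, hl, sum_singleton]⟩
  have sinj : ∀ u v, (∀ w ∈ T.ch u, Leaf G w) → (T.ch u).card = 1 →
      (∀ w ∈ T.ch v, Leaf G w) → (T.ch v).card = 1 → T.S x0 u = T.S x0 v → u = v := by
    intro u v a1 a2 b1 b2 e
    obtain ⟨l, k1, k2, k3⟩ := sing u a1 a2
    obtain ⟨l', k1', k2', k3'⟩ := sing v b1 b2
    have := l2 l l' k1 k1' (by omega)
    rw [← k2, ← k2', this]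
  set D := Q0 ∪ Q1 with hDD
  set P := Dn G r c y \ D with hP
  have DD : D ⊆ Dn G r c y := by
    intro v hv
    rcases mem_union.1 hv with h | h
    · exact q1 v h
    · exact ((mQ1 v).1 h).1
  have eU : D ∪ P = Dn G r c y := union_sdiff_of_subset DD
  have cU : P.card + D.card = (Dn G r c y).card := card_sdiff_add_card_eq_card DD
  have inj1 : Set.InjOn (T.val p x1) D := by
    intro a ha b hb e
    rcases mem_union.1 ha with h | h <;> rcases mem_union.1 hb with k | k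
    · exact q5 h k (by rw [← v0 a h, ← v0 b k, e])
    · have := q6 a h; have := ((mQ1 b).1 k).2.2.2.2
      rw [v0 a h, v1 b k] at e; omega
    · have := q6 b k; have := ((mQ1 a).1 h).2.2.2.2
      rw [v0 b k, v1 a h] at e; omega
    · rw [v1 a h, v1 b k] at e
      have a' := (mQ1 a).1 h
      have b' := (mQ1 b).1 k
      exact sinj a b a'.2.2.1 a'.2.2.2.1 b'.2.2.1 b'.2.2.2.1 e
  obtain ⟨s, hs, hI⟩ := initZ p (D.image (T.val p x1)) P.card
    (by have : (D.image (T.val p x1)).card ≤ D.card := card_image_le; omega) s0.toNat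
    (by
      have e : Q0.image (T.val p x0) ⊆
          (D.image (T.val p x1)).filter (fun z => ((s0.toNat : ℕ) : ℤ) < z) := by
        intro z hz
        obtain ⟨v, hv, rfl⟩ := mem_image.1 hz
        have := q6 v hv
        refine mem_filter.2 ⟨mem_image.2 ⟨v, mem_union_left _ hv, v0 v hv⟩, by omega⟩
      have e2 := card_le_card e
      rw [card_image_of_injOn q5] at e2
      omega)
  have hmin : ∀ v, ¬ Leaf G v → v ≠ r → v ≠ c → v ∉ D → (∀ w ∈ T.ch v, w ∉ P) →
      s0 ≤ T.S x1 v ∨ ((∀ w ∈ T.ch v, Leaf G w) ∧ (T.ch v).card = 1 ∧ T.S x0 v ≤ s0) := by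
    intro v a1 a2 a3 a4 a5
    by_cases k : ∃ w ∈ T.ch v, w ∈ Q1
    · obtain ⟨w, k1, k2⟩ := k
      have := T.le_S (fun w _ => xpos w) k1
      rw [e1 w k2] at this
      left; omega
    push Not at k
    have al : ∀ w ∈ T.ch v, Leaf G w := by
      intro w hw
      by_contra hn
      have hw' := T.mem_ch.1 hw
      have m : w ∈ Dn G r c y := mem_Dn.2 ⟨hn, hw'.1, fun h => a2 (by rw [← hw'.2, h, hc.2]),
        fun h => a2 (by rw [← hw'.2, h, hy.2])⟩
      have m2 : w ∈ D := by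
        by_contra h
        exact a5 w hw (mem_sdiff.2 ⟨m, h⟩)
      rcases mem_union.1 m2 with h | h
      · rcases q4 w h with h | h | h
        · exact a4 (mem_union_left _ (hw'.2 ▸ h))
        · exact a2 (hw'.2 ▸ h)
        · exact a3 (hw'.2 ▸ h)
      · exact k w hw h
    have ne : (T.ch v).card ≠ 0 := by
      rw [card_ne_zero, nonempty_iff_ne_empty]
      exact fun h => a1 ((T.leaf_iff a2).2 h)
    by_cases k2 : 2 ≤ (T.ch v).card
    · left
      rw [sl v al]
      exact hb v a2 a3 (fun h => a4 (mem_union_left _ h)) al k2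
    · by_cases k3 : T.S x0 v ≤ s0
      · exact Or.inr ⟨al, by omega, k3⟩
      · left; rw [sl v al]; omega
  have yD : y ∉ Dn G r c y := by simp [mem_Dn]
  obtain ⟨x, a1, a2, a3, a4, a5⟩ := T.greedy p w1 w2 hw1 hw2 y P.card P D x1 s rfl
    (fun h => yD (mem_sdiff.1 h).1) sdiff_disjoint
    (by
      intro v hv w hw hwP
      have hw2 := mem_sdiff.1 hwP
      have hw3 := (mem_Dn.1 hw2.1).1
      rcases mem_union.1 hv with h | h
      · rcases q3 v h w hw with k | k
        · exact hw3 k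
        · exact hw2.2 (mem_union_left _ k)
      · exact hw3 (((mQ1 v).1 h).2.2.1 w hw))
    xpos inj1
    (by
      intro v hv
      rcases mem_union.1 hv with h | h
      · rw [v0 v h]; have := q6 v h; omega
      · rw [v1 v h]
        have a' := (mQ1 v).1 h
        obtain ⟨l, k1, k2, k3⟩ := sing v a'.2.2.1 a'.2.2.2.1
        have := l1 l k1
        have := a'.2.2.2.2
        omega)
    hI
    (by
      intro v hv hn
      have hv2 := mem_sdiff.1 hv
      have hv3 := mem_Dn.1 hv2.1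
      rcases hmin v hv3.1 hv3.2.1 hv3.2.2.1 hv2.2 hn with h | h
      · omega
      · exact absurd (mem_union_right _ ((mQ1 v).2
          ⟨hv2.1, fun k => hv2.2 (mem_union_left _ k), h⟩)) hv2.2)
    (by
      intro hn
      rcases hmin y B.iy hy.1 B.cy.symm (fun h => yD (DD h)) hn with h | h
      · left; omega
      · right
        rw [sl y h.1]
        obtain ⟨l, k1, k2, k3⟩ := sing y h.1 h.2.1
        refine ⟨by have := l1 l k1; omega, ?_⟩
        intro hm
        obtain ⟨v, hv, e⟩ := mem_image.1 hm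
        rcases mem_union.1 hv with k | k
        · rw [v0 v k] at e; have := q6 v k; have := h.2.2; omega
        · rw [v1 v k] at e
          have a' := (mQ1 v).1 k
          exact yD (sinj v y a'.2.2.1 a'.2.2.2.1 h.1 h.2.1 e ▸ a'.1))
  rw [eU] at a3 a4 a5
  have fx : ∀ v, Leaf G v ∨ v ∈ Q0 → x v = x0 v := by
    intro v hv
    rw [a1 v, e0 v hv]
    intro h
    have hv2 := mem_sdiff.1 h
    rcases hv with k | k
    · exact (mem_Dn.1 hv2.1).1 k
    · exact hv2.2 (mem_union_left _ k)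
  refine ⟨x, ⟨?_, ?_, a3, a4, a5⟩, fx⟩
  · intro v h1 h2 h3
    by_cases k : Leaf G v
    · rw [fx v (Or.inl k)]; exact l1 v k
    have m : v ∈ D ∪ P := eU ▸ mem_Dn.2 ⟨k, h1, h2, h3⟩
    rcases mem_union.1 m with h | h
    · rcases mem_union.1 h with k | k
      · rw [fx v (Or.inr k)]; exact q2 v k
      · rw [a1 v (fun h' => (mem_sdiff.1 h').2 h), e1 v k]; have := B.p3; omega
    · exact a2 v h
  · intro u v hu hv e
    rw [fx u (Or.inl hu), fx v (Or.inl hv)] at e
    exact l2 u v hu hv e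

omit [Fintype V] [DecidableRel G.Adj] in
lemma pairs (par : V → V) (l1 l2 : V → V) : ∀ (n : ℕ) (Bs L : Finset V) (A : Finset ℤ) (k : ℤ),
    Bs.card = n → L.card = A.card → (∀ a ∈ A, k < a) →
    (∀ v ∈ Bs, l1 v ∈ L ∧ l2 v ∈ L ∧ l1 v ≠ l2 v ∧ par (l1 v) = v ∧ par (l2 v) = v) →
    ∃ lab : V → ℤ, (∀ v ∈ L, lab v ∈ A) ∧ Set.InjOn lab L ∧
      ∀ v ∈ Bs, 2 * k + A.card + 1 ≤ lab (l1 v) + lab (l2 v) := by
  intro n
  induction n with
  | zero =>
    intro Bs L A k h1 h2 _ _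
    rw [card_eq_zero] at h1
    subst h1
    let e := equivOfCardEq h2
    refine ⟨fun v => if h : v ∈ L then (e ⟨v, h⟩ : ℤ) else 0, ?_, ?_, by simp⟩
    · intro v hv
      simp only [dif_pos hv]
      exact (e ⟨v, hv⟩).2
    · intro a ha b hb h
      simp only [mem_coe] at ha hb
      simp only [dif_pos ha, dif_pos hb] at h
      have := e.injective (Subtype.ext h)
      simpa using this
  | succ n ih =>
    intro Bs L A k h1 h2 h3 h4
    obtain ⟨v, hv⟩ := card_pos.1 (show 0 < Bs.card by omega)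
    obtain ⟨a1, a2, a3, a4, a5⟩ := h4 v hv
    have c2 : 1 < A.card := h2 ▸ one_lt_card.2 ⟨_, a1, _, a2, a3⟩
    have ne : A.Nonempty := card_pos.1 (by omega)
    have lt := min'_lt_max'_of_card A c2
    set m := A.min' ne with hm
    set M := A.max' ne with hM
    have mA : m ∈ A := min'_mem _ _
    have MA : M ∈ A := max'_mem _ _
    have big : (A.card : ℤ) ≤ M + 1 - m := by
      have : A ⊆ Icc m M := fun z hz => mem_Icc.2 ⟨min'_le _ _ hz, le_max' _ _ hz⟩
      have e := card_le_card this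
      have := cardI m M (by omega)
      omega
    have cA : ((A.erase m).erase M).card + 2 = A.card := by
      rw [card_erase_of_mem (mem_erase.2 ⟨ne_of_gt lt, MA⟩), card_erase_of_mem mA]; omega
    have cL : ((L.erase (l1 v)).erase (l2 v)).card + 2 = L.card := by
      rw [card_erase_of_mem (mem_erase.2 ⟨a3.symm, a2⟩), card_erase_of_mem a1]; omega
    obtain ⟨lab, b1, b2, b3⟩ := ih (Bs.erase v) ((L.erase (l1 v)).erase (l2 v))
      ((A.erase m).erase M) (k + 1) (by rw [card_erase_of_mem hv]; omega) (by omega)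
      (by
        intro a ha
        simp only [mem_erase] at ha
        have := min'_le _ _ ha.2.2
        have := h3 m mA
        omega)
      (by
        intro u hu
        rw [mem_erase] at hu
        obtain ⟨c1, c2, c3, c4, c5⟩ := h4 u hu.2
        simp only [mem_erase]
        refine ⟨⟨?_, ?_, c1⟩, ⟨?_, ?_, c2⟩, c3, c4, c5⟩ <;>
        · intro h
          apply hu.1
          first
            | (rw [← c4, h]; assumption)
            | (rw [← c5, h]; assumption))
    refine ⟨fun w => if w = l1 v then m else if w = l2 v then M else lab w, ?_, ?_, ?_⟩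
    · intro w hw
      dsimp only
      split_ifs with k1 k2
      · exact mA
      · exact MA
      · exact mem_of_mem_erase (mem_of_mem_erase (b1 w (by simp [k1, k2, hw])))
    · intro a ha b hb e
      simp only [mem_coe] at ha hb
      have q : ∀ w ∈ L, w ≠ l1 v → w ≠ l2 v → lab w ≠ m ∧ lab w ≠ M := by
        intro w hw k1 k2
        have := b1 w (by simp [k1, k2, hw])
        simp only [mem_erase] at this
        exact ⟨this.2.1, this.1⟩
      dsimp only at e
      split_ifs at e with k1 k2 k3 k4 k5 k6 k7 k8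
      all_goals first
        | rw [k1, k2]
        | omega
        | (subst_vars; rfl)
        | (exfalso; have := q b hb ‹_› ‹_›; omega)
        | (exfalso; have := q a ha ‹_› ‹_›; omega)
        | exact b2 (by simp [*]) (by simp [*]) e
    · intro u hu
      by_cases k : u = v
      · subst k
        have := h3 m mA
        simp only [if_true, if_neg a3.symm]
        omega
      · obtain ⟨c1, c2, c3, c4, c5⟩ := h4 u hu
        have := b3 u (mem_erase.2 ⟨k, hu⟩)
        have n1 : l1 u ≠ l1 v := fun h => k (by rw [← c4, h, a4])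
        have n2 : l1 u ≠ l2 v := fun h => k (by rw [← c4, h, a5])
        have n3 : l2 u ≠ l1 v := fun h => k (by rw [← c5, h, a4])
        have n4 : l2 u ≠ l2 v := fun h => k (by rw [← c5, h, a5])
        simp only [if_neg n1, if_neg n2, if_neg n3, if_neg n4]
        omega

structure Lab (T : Rt G r) (p : ℕ) (Sp : Finset V) (t : ℤ) (lab : V → ℤ) : Prop where
  l1 : ∀ v, Leaf G v → 1 ≤ lab v ∧ lab v ≤ p
  l2 : ∀ u v, Leaf G u → Leaf G v → lab u = lab v → u = v
  l3 : ∀ v, (∀ w ∈ T.ch v, Leaf G w ∧ w ∉ Sp) → 2 ≤ (T.ch v).card → t ≤ T.S lab v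

lemma labels (T : Rt G r) {p : ℕ} (nl : (univ.filter (fun v => Leaf G v)).card = p)
    (Sp : Finset V) (M : Finset ℤ) (k : ℤ) (h1 : ∀ v ∈ Sp, Leaf G v) (h2 : Sp.card = M.card)
    (h3 : ∀ z ∈ M, 1 ≤ z ∧ z ≤ p) (h4 : ∀ z, 1 ≤ z → z ≤ k → z ∈ M) :
    ∃ lab0 : V → ℤ, ∀ f : V → ℤ, (∀ v ∈ Sp, f v ∈ M) → Set.InjOn f Sp →
      T.Lab p Sp (2 * k + p + 1 - Sp.card) (fun v => if v ∈ Sp then f v else lab0 v) := by
  set Bs := univ.filter (fun v => (∀ w ∈ T.ch v, Leaf G w ∧ w ∉ Sp) ∧ 2 ≤ (T.ch v).card) with hBs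
  have ex : ∀ v, ∃ a b, v ∈ Bs → a ∈ T.ch v ∧ b ∈ T.ch v ∧ a ≠ b := by
    intro v
    by_cases h : v ∈ Bs
    · obtain ⟨a, ha, b, hb, e⟩ := one_lt_card.1 (show 1 < (T.ch v).card from (mem_filter.1 h).2.2)
      exact ⟨a, b, fun _ => ⟨ha, hb, e⟩⟩
    · exact ⟨v, v, fun k => absurd k h⟩
  choose l1 l2 hl using ex
  have s1 : Sp ⊆ univ.filter (fun v => Leaf G v) := fun v hv => by simp [h1 v hv]
  have s2 : M ⊆ Icc (1 : ℤ) p := fun z hz => mem_Icc.2 (h3 z hz)
  have c1 := card_sdiff_add_card_eq_card s1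
  have c2 := card_sdiff_add_card_eq_card s2
  have c3 := cardI 1 p (by omega)
  obtain ⟨lab, b1, b2, b3⟩ := pairs T.par l1 l2 _ Bs (univ.filter (fun v => Leaf G v) \ Sp)
    (Icc (1 : ℤ) p \ M) k rfl (by omega)
    (by
      intro a ha
      simp only [mem_sdiff, mem_Icc] at ha
      by_contra h
      exact ha.2 (h4 a ha.1.1 (by omega)))
    (by
      intro v hv
      obtain ⟨a1, a2, a3⟩ := hl v hv
      have k := (mem_filter.1 hv).2.1
      simp only [mem_sdiff, mem_filter, mem_univ, true_and]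
      exact ⟨k _ a1, k _ a2, a3, (T.mem_ch.1 a1).2, (T.mem_ch.1 a2).2⟩)
  simp only [mem_sdiff, mem_filter, mem_univ, true_and, mem_Icc, and_imp] at b1
  refine ⟨lab, fun f f1 f2 => ?_⟩
  have r1 : ∀ v, Leaf G v → 1 ≤ (if v ∈ Sp then f v else lab v) ∧
      (if v ∈ Sp then f v else lab v) ≤ p := by
    intro v hv
    split_ifs with h
    · exact h3 _ (f1 v h)
    · exact (b1 v hv h).1
  refine ⟨r1, ?_, ?_⟩
  · intro u v hu hv e
    split_ifs at e with a b b
    · exact f2 a b e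
    · exact absurd (e ▸ f1 u a) (b1 v hv b).2
    · exact absurd (e ▸ f1 v b) (b1 u hu a).2
    · exact b2 (by simp [hu, a]) (by simp [hv, b]) e
  · intro v k1 k2
    have m : v ∈ Bs := mem_filter.2 ⟨mem_univ _, k1, k2⟩
    obtain ⟨a1, a2, a3⟩ := hl v m
    have e := b3 v m
    have e2 : ∑ w ∈ {l1 v, l2 v}, (if w ∈ Sp then f w else lab w) ≤
        T.S (fun v => if v ∈ Sp then f v else lab v) v := by
      refine sum_le_sum_of_subset_of_nonneg ?_ ?_
      · intro w hw
        simp only [mem_insert, mem_singleton] at hw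
        rcases hw with rfl | rfl <;> assumption
      · intro w hw _
        have := r1 w (k1 w hw).1
        omega
    rw [sum_pair a3, if_neg (k1 _ a1).2, if_neg (k1 _ a2).2] at e2
    omega

end Rt

end Pool.Agent.H.MP_033e98_co
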