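import Mathlib
import Pool.Agent.H.MP_033e98_co.C

namespace Pool.Agent.H.MP_033e98_co

open Finset

variable {V : Type*} [Fintype V] [DecidableEq V] {G : SimpleGraph V} [DecidableRel G.Adj] {r : V}

lemma sum_ge (A : Finset ℤ) (h : ∀ a ∈ A, 1 ≤ a) :
    (A.card : ℤ) * (A.card + 1) ≤ 2 * ∑ a ∈ A, a := by
  induction A using Finset.induction_on_max with
  | empty => simp
  | insert a s ha ih =>
    have n : a ∉ s := fun k => lt_irrefl _ (ha a k)
    have i := ih (fun b hb => h b (mem_insert_of_mem hb))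
    have e : s ⊆ Icc 1 (a - 1) := fun z hz => by
      have := ha z hz
      have := h z (mem_insert_of_mem hz)
      simp; omega
    have e1 := card_le_card e
    have e2 := cardI 1 (a - 1) (by have := h a (mem_insert_self _ _); omega)
    rw [card_insert_of_notMem n, sum_insert n]
    push_cast
    have : (s.card : ℤ) + 1 ≤ a := by omega
    nlinarith

lemma sum_Icc (n : ℕ) : 2 * ∑ a ∈ Icc (1 : ℤ) n, a = (n : ℤ) * (n + 1) := by
  induction n with
  | zero => simp
  | succ n ih =>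
    have : Icc (1 : ℤ) (n + 1 : ℕ) = insert ((n : ℤ) + 1) (Icc (1 : ℤ) n) := by
      ext z; simp; omega
    rw [this, sum_insert (by simp)]
    push_cast
    linarith

omit [Fintype V] in
lemma enum (A : Finset V) : ∃ g : V → ℤ, (∀ v ∈ A, 1 ≤ g v ∧ g v ≤ A.card) ∧ Set.InjOn g A ∧
    2 * ∑ v ∈ A, g v = (A.card : ℤ) * (A.card + 1) := by
  have c := cardI 1 A.card (by omega)
  obtain ⟨g, h1, h2, -⟩ := Rt.pairs (id : V → V) id id 0 ∅ A (Icc (1 : ℤ) A.card) 0 rfl (by omega)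
    (by simp; omega) (by simp)
  refine ⟨g, fun v hv => mem_Icc.1 (h1 v hv), h2, ?_⟩
  have e : A.image g = Icc (1 : ℤ) A.card := by
    apply eq_of_subset_of_card_le
    · intro z hz
      obtain ⟨v, hv, rfl⟩ := mem_image.1 hz
      exact h1 v hv
    · rw [card_image_of_injOn h2]; omega
  rw [← sum_Icc, ← e, sum_image h2]

namespace Rt

variable {T : Rt G r}

structure Ch (T : Rt G r) (v : V) (C : Finset V) (w : V) : Prop where
  wn : w ∉ C
  ne : (T.ch w).Nonempty
  lf : ∀ l ∈ T.ch w, Leaf G l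
  vm : v ∈ insert w C
  el : ∀ u ∈ insert w C, u ≠ r ∧ ¬ Leaf G u ∧ T.top u = T.top v ∧ (u = v ∨ T.par u ∈ C) ∧
    T.rk v ≤ T.rk u
  cl : ∀ u ∈ C, ∀ u' ∈ T.ch u, u' ∈ insert w C

structure Nm (T : Rt G r) (p : ℤ) (σ : ℕ → ℤ) (e : ℤ) (v : V) (C : Finset V) (w : V)
    (xc : V → ℤ) : Prop where
  top : xc v = e
  up : ∀ u ∈ insert w C, xc u ≤ p ∧ (u = v ∨ ∃ i < C.card, σ i ≤ xc u)
  vals : ∀ u ∈ C, ∃ i < C.card, T.val p xc u = σ i
  inj : Set.InjOn (T.val p xc) C
  b0 : C.card = 0 → xc w = e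
  b1 : ∀ j, C.card = j + 1 → σ j ≤ xc w
  b2 : ∀ j, C.card = j + 1 → (2 ≤ j ∨ (1 ≤ j ∧ σ 0 < e) ∨ (j = 0 ∧ e < p)) → σ j + 1 ≤ xc w
  b3 : (2 ≤ C.card ∨ (1 ≤ C.card ∧ σ 0 < e)) → xc w < p

lemma Ch.val_congr {v w : V} {C : Finset V} (h : T.Ch v C w) (p : ℤ) {x y : V → ℤ}
    (e : ∀ u ∈ insert w C, x u = y u) : ∀ u ∈ C, T.val p x u = T.val p y u := by
  intro u hu
  rw [val, val, e u (mem_insert_of_mem hu), T.S_congr (fun z hz => e z (h.cl u hu z hz))]

lemma chain {v : V} (h : T.Simp v) : ∃ C w, T.Ch v C w ∧ ∀ (p : ℤ) (σ : ℕ → ℤ) (e : ℤ),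
    StrictAnti σ → σ 0 ≤ e → e ≤ p → ∃ xc, T.Nm p σ e v C w xc := by
  induction h with
  | per v a b c =>
    have k := (Simp.per v a b c).ne
    refine ⟨∅, v, ⟨by simp, b, c, by simp, by simp [k], by simp⟩, fun p σ e _ h1 h2 => ?_⟩
    exact ⟨fun _ => e, rfl, by simp [h2], by simp, by simp, fun _ => rfl, by simp, by simp, by simp⟩
  | step v v' a b c ih =>
    have k := (Simp.step v v' a b c).ne
    obtain ⟨C, w, h, hn⟩ := ih
    have m : v' ∈ T.ch v := by rw [b]; simp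
    have rk := T.rk_ch m
    have nv : v ∉ insert w C := fun hv => by have := (h.el v hv).2.2.2.2; omega
    have nv1 : v ≠ w := fun e => nv (by simp [e])
    have nv2 : v ∉ C := fun e => nv (by simp [e])
    have cc : (insert v C).card = C.card + 1 := card_insert_of_notMem nv2
    have h' : T.Ch v (insert v C) w := by
      refine ⟨by simp [nv1.symm, h.wn], h.ne, h.lf, by simp, ?_, ?_⟩
      · intro u hu
        rw [insert_comm, mem_insert] at hu
        rcases hu with rfl | hu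
        · exact ⟨k.1, k.2, rfl, Or.inl rfl, le_rfl⟩
        · obtain ⟨e1, e2, e3, e4, e5⟩ := h.el u hu
          refine ⟨e1, e2, e3.trans (T.top_ch a m), Or.inr ?_, by omega⟩
          rcases e4 with rfl | e4
          · rw [(T.mem_ch.1 m).2]; simp
          · exact mem_insert_of_mem e4
      · intro u hu u' hu'
        rw [insert_comm]
        rcases mem_insert.1 hu with rfl | hu
        · rw [b, mem_singleton] at hu'
          exact mem_insert_of_mem (hu' ▸ h.vm)
        · exact mem_insert_of_mem (h.cl u hu u' hu')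
    refine ⟨insert v C, w, h', fun p σ e h1 h2 h3 => ?_⟩
    have s1 : σ 1 < σ 0 := h1 (by omega)
    obtain ⟨xc, N⟩ := hn p (fun i => σ (i + 1)) (σ 0 + p - e)
      (fun i j hij => h1 (by omega)) (by simp only [zero_add]; omega) (by omega)
    have e0 : ∀ u ∈ insert w C, Function.update xc v e u = xc u := fun u hu =>
      Function.update_of_ne (fun (k : u = v) => nv (k ▸ hu)) _ _
    have ev := h.val_congr p e0
    have ew := e0 w (mem_insert_self _ _)
    have evv : T.val p (Function.update xc v e) v = σ 0 := by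
      rw [val, S, b, sum_singleton, e0 v' h.vm, N.top, Function.update_self]; ring
    refine ⟨Function.update xc v e, Function.update_self _ _ _, ?_, ?_, ?_, ?_, ?_, ?_, ?_⟩
    · intro u hu
      rw [insert_comm, mem_insert] at hu
      rcases hu with rfl | hu
      · rw [Function.update_self]; exact ⟨h3, Or.inl rfl⟩
      · rw [e0 u hu]
        refine ⟨(N.up u hu).1, Or.inr ?_⟩
        rcases (N.up u hu).2 with rfl | ⟨i, i1, i2⟩
        · exact ⟨0, by omega, by rw [N.top]; omega⟩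
        · exact ⟨i + 1, by omega, i2⟩
    · intro u hu
      rcases mem_insert.1 hu with rfl | hu
      · exact ⟨0, by omega, evv⟩
      · obtain ⟨i, i1, i2⟩ := N.vals u hu
        exact ⟨i + 1, by omega, by rw [ev u hu, i2]⟩
    · rw [coe_insert, Set.injOn_insert (by simpa using nv2)]
      refine ⟨fun a ha b hb e => N.inj ha hb (by rw [← ev a ha, ← ev b hb, e]), ?_⟩
      rintro ⟨u, hu, e⟩
      obtain ⟨i, i1, i2⟩ := N.vals u hu
      rw [ev u hu, i2, evv] at e
      have := h1.injective e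
      omega
    · intro k; omega
    · intro j hj
      rw [ew]
      rcases j with _ | j
      · rw [N.b0 (by omega)]; omega
      · exact N.b1 j (by omega)
    · intro j hj k
      rw [ew]
      rcases j with _ | j
      · rw [N.b0 (by omega)]; omega
      · refine N.b2 j (by omega) ?_
        simp only [zero_add]
        omega
    · intro k
      rw [ew]
      by_cases z : C.card = 0
      · rw [N.b0 z]; omega
      · refine N.b3 ?_
        simp only [zero_add]
        omega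

def mix (G : SimpleGraph V) [DecidableRel G.Adj] (lab xq : V → ℤ) (v : V) : ℤ :=
  if Leaf G v then lab v else xq v

omit [DecidableEq V] in
lemma mix_leaf {lab xq : V → ℤ} {v : V} (h : Leaf G v) : mix G lab xq v = lab v := if_pos h

omit [DecidableEq V] in
lemma mix_int {lab xq : V → ℤ} {v : V} (h : ¬ Leaf G v) : mix G lab xq v = xq v := if_neg h

lemma S_mix {lab xq : V → ℤ} {v : V} (h : ∀ w ∈ T.ch v, Leaf G w) :
    T.S (mix G lab xq) v = T.S lab v := T.S_congr (fun w hw => mix_leaf (h w hw))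

lemma core2 {p : ℕ} {c y : V} (B : T.Base p c y) (w1 w2 : ℤ) (hw1 : (p : ℤ) ≤ w1)
    (hw2 : (p : ℤ) ≤ w2) {Sp : Finset V} {t : ℤ} {lab : V → ℤ} (L : T.Lab p Sp t lab)
    (xq : V → ℤ) (Q0 : Finset V)
    (q1 : ∀ v ∈ Q0, v ∈ Dn G r c y) (q2 : ∀ v ∈ Q0, 1 ≤ xq v ∧ xq v ≤ p)
    (q3 : ∀ v ∈ Q0, ∀ w ∈ T.ch v, Leaf G w ∨ w ∈ Q0)
    (q4 : ∀ w ∈ Q0, T.par w ∈ Q0 ∨ T.par w = r ∨ T.par w = c)
    (q5 : Set.InjOn (T.val p (mix G lab xq)) Q0)
    (q6 : ∀ v ∈ Q0, (p : ℤ) - 1 - Q0.card < T.val p (mix G lab xq) v ∧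
      T.val p (mix G lab xq) v ≠ w1 ∧ T.val p (mix G lab xq) v ≠ w2)
    (ht : (p : ℤ) - 1 - Q0.card ≤ t)
    (sp : ∀ l ∈ Sp, T.par l ∈ Q0 ∨ T.par l = r ∨ T.par l = c ∨
      (p : ℤ) - 1 - Q0.card ≤ T.S lab (T.par l)) :
    ∃ x, T.Post p c y w1 w2 x ∧ (∀ v, Leaf G v → x v = lab v) ∧ ∀ v ∈ Q0, x v = xq v := by
  obtain ⟨x, h1, h2⟩ := core B w1 w2 hw1 hw2 (mix G lab xq) Q0
    (fun v hv => by rw [mix_leaf hv]; exact L.l1 v hv)
    (fun u v hu hv e => by rw [mix_leaf hu, mix_leaf hv] at e; exact L.l2 u v hu hv e)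
    q1 (fun v hv => by rw [mix_int (mem_Dn.1 (q1 v hv)).1]; exact q2 v hv) q3 q4 q5 q6
    (by
      intro v a1 a2 a3 a4 a5
      rw [S_mix a4]
      by_cases k : ∃ l ∈ T.ch v, l ∈ Sp
      · obtain ⟨l, k1, k2⟩ := k
        have e := (T.mem_ch.1 k1).2
        have := sp l k2
        rw [e] at this
        tauto
      · push Not at k
        exact ht.trans (L.l3 v (fun w hw => ⟨a4 w hw, k w hw⟩) a5))
  exact ⟨x, h1, fun v hv => by rw [h2 v (Or.inl hv), mix_leaf hv],
    fun v hv => by rw [h2 v (Or.inr hv), mix_int (mem_Dn.1 (q1 v hv)).1]⟩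

lemma Lab.sum_ge {p : ℕ} {Sp : Finset V} {t : ℤ} {lab : V → ℤ} (L : T.Lab p Sp t lab)
    (A : Finset V) (h : ∀ v ∈ A, Leaf G v) :
    (A.card : ℤ) * (A.card + 1) ≤ 2 * ∑ v ∈ A, lab v := by
  have i : Set.InjOn lab A := fun a ha b hb e => L.l2 a b (h a ha) (h b hb) e
  have := MP_033e98_co.sum_ge (A.image lab) (by
    intro z hz
    obtain ⟨v, hv, rfl⟩ := mem_image.1 hz
    exact (L.l1 v (h v hv)).1)
  rwa [card_image_of_injOn i, sum_image i] at this

lemma Lab.sub_le {p : ℕ} {Sp : Finset V} {t : ℤ} {lab : V → ℤ} (L : T.Lab p Sp t lab)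
    {w : V} (h : ∀ v ∈ T.ch w, Leaf G v) (A : Finset V) (hA : A ⊆ T.ch w) :
    ∑ v ∈ A, lab v + ((T.ch w).card - A.card) ≤ T.S lab w := by
  rw [S, ← sum_sdiff hA]
  have e := card_sdiff_add_card_eq_card hA
  have e2 : ∑ v ∈ T.ch w \ A, (1 : ℤ) ≤ ∑ v ∈ T.ch w \ A, lab v :=
    sum_le_sum (fun v hv => (L.l1 v (h v (mem_sdiff.1 hv).1)).1)
  simp only [sum_const, nsmul_eq_mul, mul_one] at e2
  omega

end Rt

end Pool.Agent.H.MP_033e98_co
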