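import Mathlib
import Pool.Agent.H.MP_033e98_co.D

namespace Pool.Agent.H.MP_033e98_co

open Finset

variable {V : Type*} [Fintype V] [DecidableEq V] {G : SimpleGraph V} [DecidableRel G.Adj] {r : V}

namespace Rt

variable {T : Rt G r}

lemma Lab.mono {p : ℕ} {Sp : Finset V} {t t' : ℤ} {lab : V → ℤ} (L : T.Lab p Sp t lab)
    (h : t' ≤ t) : T.Lab p Sp t' lab :=
  ⟨L.l1, L.l2, fun v a b => h.trans (L.l3 v a b)⟩

lemma labk (T : Rt G r) {p : ℕ} (nl : (univ.filter (fun v => Leaf G v)).card = p)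
    (Sp : Finset V) (f : V → ℤ) (k : ℤ) (h1 : ∀ v ∈ Sp, Leaf G v)
    (h3 : ∀ v ∈ Sp, 1 ≤ f v ∧ f v ≤ p) (h2 : Set.InjOn f Sp)
    (h4 : ∀ z, 1 ≤ z → z ≤ k → ∃ v ∈ Sp, f v = z) :
    ∃ lab, T.Lab p Sp (2 * k + p + 1 - Sp.card) lab ∧ ∀ v ∈ Sp, lab v = f v := by
  obtain ⟨lab0, h⟩ := T.labels nl Sp (Sp.image f) k h1 (card_image_of_injOn h2).symm
    (by
      intro z hz
      obtain ⟨v, hv, rfl⟩ := mem_image.1 hz
      exact h3 v hv)
    (fun z a b => mem_image.2 (h4 z a b))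
  exact ⟨_, h f (fun v hv => mem_image_of_mem _ hv) h2, fun v hv => if_pos hv⟩

lemma lab2 (T : Rt G r) {p : ℕ} (nl : (univ.filter (fun v => Leaf G v)).card = p)
    {a b : V} (ha : Leaf G a) (hb : Leaf G b) (ab : a ≠ b) (s t : ℤ)
    (h : 1 ≤ s ∧ s ≤ p ∧ 1 ≤ t ∧ t ≤ p ∧ s ≠ t) :
    ∃ lab, T.Lab p {a, b} (p - 1) lab ∧ lab a = s ∧ lab b = t := by
  obtain ⟨lab, L, e⟩ := T.labk nl {a, b} (fun v => if v = a then s else t) 0
    (by simp [ha, hb]) (by simp [ab.symm]; omega)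
    (by
      intro x hx y hy e
      simp only [coe_insert, coe_singleton, Set.mem_insert_iff, Set.mem_singleton_iff] at hx hy
      rcases hx with rfl | rfl <;> rcases hy with rfl | rfl <;>
        simp [ab, ab.symm] at e ⊢ <;> omega)
    (by intro z; omega)
  refine ⟨lab, L.mono ?_, by simpa using e a, by simpa [ab.symm] using e b⟩
  have : ({a, b} : Finset V).card ≤ 2 := card_le_two
  omega

lemma lab3 (T : Rt G r) {p : ℕ} (nl : (univ.filter (fun v => Leaf G v)).card = p)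
    {a b c : V} (ha : Leaf G a) (hb : Leaf G b) (hc : Leaf G c) (ab : a ≠ b) (ac : a ≠ c)
    (bc : b ≠ c) (s t u : ℤ)
    (h : 1 ≤ s ∧ s ≤ p ∧ 1 ≤ t ∧ t ≤ p ∧ 1 ≤ u ∧ u ≤ p ∧ s ≠ t ∧ s ≠ u ∧ t ≠ u) :
    ∃ lab, T.Lab p {a, b, c} (p - 2) lab ∧ lab a = s ∧ lab b = t ∧ lab c = u := by
  obtain ⟨lab, L, e⟩ := T.labk nl {a, b, c}
    (fun v => if v = a then s else if v = b then t else u) 0
    (by simp [ha, hb, hc]) (by simp [ab.symm, ac.symm, bc.symm]; omega)
    (by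
      intro x hx y hy e
      simp only [coe_insert, coe_singleton, Set.mem_insert_iff, Set.mem_singleton_iff] at hx hy
      rcases hx with rfl | rfl | rfl <;> rcases hy with rfl | rfl | rfl <;>
        simp [ab, ab.symm, ac, ac.symm, bc, bc.symm] at e ⊢ <;> omega)
    (by intro z; omega)
  refine ⟨lab, L.mono ?_, by simpa using e a, by simpa [ab.symm] using e b,
    by simpa [ac.symm, bc.symm] using e c⟩
  have : ({a, b, c} : Finset V).card ≤ 3 := card_le_three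
  omega

lemma lab4 (T : Rt G r) {p : ℕ} (nl : (univ.filter (fun v => Leaf G v)).card = p)
    {a b c d : V} (ha : Leaf G a) (hb : Leaf G b) (hc : Leaf G c) (hd : Leaf G d)
    (ab : a ≠ b) (ac : a ≠ c) (bc : b ≠ c) (ad : a ≠ d) (bd : b ≠ d) (cd : c ≠ d) (s t u v : ℤ)
    (h : 1 ≤ s ∧ s ≤ p ∧ 1 ≤ t ∧ t ≤ p ∧ 1 ≤ u ∧ u ≤ p ∧ 1 ≤ v ∧ v ≤ p ∧ s ≠ t ∧ s ≠ u ∧ t ≠ u ∧
      s ≠ v ∧ t ≠ v ∧ u ≠ v) :
    ∃ lab, T.Lab p {a, b, c, d} (p - 3) lab ∧ lab a = s ∧ lab b = t ∧ lab c = u ∧ lab d = v := by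
  obtain ⟨lab, L, e⟩ := T.labk nl {a, b, c, d}
    (fun x => if x = a then s else if x = b then t else if x = c then u else v) 0
    (by simp [ha, hb, hc, hd])
    (by simp [ab.symm, ac.symm, bc.symm, ad.symm, bd.symm, cd.symm]; omega)
    (by
      intro x hx y hy e
      simp only [coe_insert, coe_singleton, Set.mem_insert_iff, Set.mem_singleton_iff] at hx hy
      rcases hx with rfl | rfl | rfl | rfl <;> rcases hy with rfl | rfl | rfl | rfl <;>
        simp [ab, ab.symm, ac, ac.symm, bc, bc.symm, ad, ad.symm, bd, bd.symm, cd, cd.symm]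
          at e ⊢ <;> omega)
    (by intro z; omega)
  refine ⟨lab, L.mono ?_, by simpa using e a, by simpa [ab.symm] using e b,
    by simpa [ac.symm, bc.symm] using e c, by simpa [ad.symm, bd.symm, cd.symm] using e d⟩
  have : ({a, b, c, d} : Finset V).card ≤ 4 := card_le_four
  omega

omit [DecidableRel G.Adj] in
lemma ch_ne {u v a b : V} (h : u ≠ v) (ha : a ∈ T.ch u) (hb : b ∈ T.ch v) : a ≠ b := by
  rintro rfl
  exact h ((T.mem_ch.1 ha).2.symm.trans (T.mem_ch.1 hb).2)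

omit [DecidableEq V] in
lemma leaf_card {p : ℕ} (nl : (univ.filter (fun v => Leaf G v)).card = p) (A : Finset V)
    (h : ∀ v ∈ A, Leaf G v) : A.card ≤ p :=
  nl ▸ card_le_card (fun v hv => by simp [h v hv])

lemma OB (T : Rt G r) {p : ℕ} (nl : (univ.filter (fun v => Leaf G v)).card = p) {w lp ly : V}
    (ne : (T.ch w).Nonempty) (lf : ∀ l ∈ T.ch w, Leaf G l) (h1 : Leaf G lp) (h2 : Leaf G ly)
    (n1 : lp ∉ T.ch w) (n2 : ly ∉ T.ch w) (n3 : lp ≠ ly) (d v : ℤ) (d0 : 0 ≤ d) (v2 : 2 ≤ v)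
    (dv : d + v ≤ p - 1) (k2 : v = 2 → 4 ≤ p → 1 ≤ d) (k3 : v = 2 → 5 ≤ p → d ≤ p - 4) :
    ∃ Sp lab, T.Lab p Sp (p - 2) lab ∧ (∀ l ∈ Sp, l = lp ∨ l ∈ T.ch w) ∧ lab lp = p ∧
      (T.S lab w - d = v ∨ p + 2 ≤ T.S lab w - d) := by
  have cp := leaf_card nl (insert lp (insert ly (T.ch w))) (by
    intro v hv
    simp only [mem_insert] at hv
    rcases hv with rfl | rfl | h
    exacts [h1, h2, lf v h])
  rw [card_insert_of_notMem (by simp [n1, n3]), card_insert_of_notMem n2] at cp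
  have c0 := ne.card_pos
  have nn : ∀ a ∈ T.ch w, lp ≠ a := fun a ha e => n1 (e ▸ ha)
  by_cases c1 : (T.ch w).card = 1
  · obtain ⟨a, ha⟩ := card_eq_one.1 c1
    have m : a ∈ T.ch w := by simp [ha]
    obtain ⟨lab, L, e1, e2⟩ := T.lab2 nl h1 (lf a m) (nn a m) p (d + v) (by omega)
    refine ⟨_, lab, L.mono (by omega), by simp [m], e1, Or.inl ?_⟩
    rw [S, ha, sum_singleton]; omega
  by_cases c2 : (T.ch w).card = 2
  · obtain ⟨a, b, ab, ha⟩ := card_eq_two.1 c2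
    have m : a ∈ T.ch w := by simp [ha]
    have m' : b ∈ T.ch w := by simp [ha]
    obtain ⟨lab, L, e1, e2, e3⟩ := T.lab3 nl h1 (lf a m) (lf b m') (nn a m) (nn b m') ab
      p 1 (d + v - 1) (by omega)
    refine ⟨_, lab, L, by simp [m, m'], e1, Or.inl ?_⟩
    rw [S, ha, sum_pair ab]; omega
  · obtain ⟨a, m, b, m', ab⟩ := one_lt_card.1 (show 1 < (T.ch w).card by omega)
    obtain ⟨lab, L, e1, e2, e3⟩ := T.lab3 nl h1 (lf a m) (lf b m') (nn a m) (nn b m') ab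
      p (p - 1) (p - 2) (by omega)
    refine ⟨_, lab, L, by simp [m, m'], e1, Or.inr ?_⟩
    have := L.sub_le lf {a, b} (by intro x; simp; rintro (rfl | rfl) <;> assumption)
    rw [sum_pair ab, card_pair ab] at this
    omega

def TBc (T : Rt G r) (p : ℕ) (w1 w2 : V) (d1 d2 v : ℤ) : Prop :=
  ∃ Sp lab, T.Lab p Sp (p - 3) lab ∧ (∀ l ∈ Sp, l ∈ T.ch w1 ∨ l ∈ T.ch w2) ∧
    T.S lab w1 - d1 ≠ T.S lab w2 - d2 ∧
    (T.S lab w1 - d1 = v ∨ T.S lab w1 - d1 = v - 1 ∨ p + 2 ≤ T.S lab w1 - d1) ∧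
    (T.S lab w2 - d2 = v ∨ T.S lab w2 - d2 = v - 1 ∨ p + 2 ≤ T.S lab w2 - d2)

lemma TBc.symm {p : ℕ} {w1 w2 : V} {d1 d2 v : ℤ} (h : T.TBc p w1 w2 d1 d2 v) :
    T.TBc p w2 w1 d2 d1 v := by
  obtain ⟨Sp, lab, a, b, c, d, e⟩ := h
  exact ⟨Sp, lab, a, fun l hl => (b l hl).symm, c.symm, e, d⟩

lemma TB1 (T : Rt G r) {p : ℕ} (nl : (univ.filter (fun v => Leaf G v)).card = p) {w1 w2 : V}
    (n : w1 ≠ w2) (lf1 : ∀ l ∈ T.ch w1, Leaf G l) (lf2 : ∀ l ∈ T.ch w2, Leaf G l)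
    (d1 d2 v : ℤ) (a1 : 0 ≤ d1) (v3 : 3 ≤ v) (b1 : d1 + v ≤ p - 1)
    (b2 : d2 + v ≤ p - 1) (c1 : (T.ch w1).card = 1 ∨ (T.ch w1).card = 2)
    (c2 : 2 ≤ (T.ch w2).card) : T.TBc p w1 w2 d1 d2 v := by
  obtain ⟨b, mb, c, mc, bc⟩ := one_lt_card.1 (show 1 < (T.ch w2).card by omega)
  have key : ∀ {Sp t lab}, T.Lab p Sp t lab → lab b = p → lab c = p - 1 →
      (p : ℤ) + 3 ≤ T.S lab w2 - d2 := by
    intro Sp t lab L e1 e2
    have := L.sub_le lf2 {b, c} (by intro x; simp; rintro (rfl | rfl) <;> assumption)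
    rw [sum_pair bc, card_pair bc] at this
    omega
  rcases c1 with c1 | c1
  · obtain ⟨a, ha⟩ := card_eq_one.1 c1
    have m : a ∈ T.ch w1 := by simp [ha]
    obtain ⟨lab, L, e1, e2, e3⟩ := T.lab3 nl (lf1 a m) (lf2 b mb) (lf2 c mc) (ch_ne n m mb)
      (ch_ne n m mc) bc (d1 + v - 1) p (p - 1) (by omega)
    have := key L e2 e3
    have e : T.S lab w1 = d1 + v - 1 := by rw [S, ha, sum_singleton, e1]
    exact ⟨_, lab, L.mono (by omega), by simp [m, mb, mc], by omega, by omega, by omega⟩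
  · obtain ⟨a, a', aa, ha⟩ := card_eq_two.1 c1
    have m : a ∈ T.ch w1 := by simp [ha]
    have m' : a' ∈ T.ch w1 := by simp [ha]
    obtain ⟨lab, L, e1, e1', e2, e3⟩ := T.lab4 nl (lf1 a m) (lf1 a' m') (lf2 b mb) (lf2 c mc) aa
      (ch_ne n m mb) (ch_ne n m' mb) (ch_ne n m mc) (ch_ne n m' mc) bc 1 (d1 + v - 1) p (p - 1)
      (by omega)
    have := key L e2 e3
    have e : T.S lab w1 = d1 + v := by rw [S, ha, sum_pair aa, e1, e1']; ring
    exact ⟨_, lab, L, by simp [m, m', mb, mc], by omega, by omega, by omega⟩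

omit [DecidableRel G.Adj] in
lemma S_swap0 (x : V → ℤ) {a b v : V} (ha : a ∉ T.ch v) (hb : b ∉ T.ch v) :
    T.S (x ∘ Equiv.swap a b) v = T.S x v :=
  T.S_congr (fun w hw => by
    rw [Function.comp, Equiv.swap_apply_of_ne_of_ne (fun (h : w = a) => ha (h ▸ hw))
      (fun (h : w = b) => hb (h ▸ hw))])

omit [Fintype V] in
lemma sum_swap1 (x : V → ℤ) {a b : V} {A : Finset V} (ha : a ∈ A) (hb : b ∉ A) :
    ∑ w ∈ A, (x ∘ Equiv.swap a b) w = ∑ w ∈ A, x w - x a + x b := by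
  rw [← add_sum_erase _ _ ha, ← add_sum_erase _ x ha]
  have : ∑ w ∈ A.erase a, (x ∘ Equiv.swap a b) w = ∑ w ∈ A.erase a, x w :=
    sum_congr rfl (fun w hw => by
      rw [Function.comp, Equiv.swap_apply_of_ne_of_ne (mem_erase.1 hw).1
        (fun (h : w = b) => hb (h ▸ (mem_erase.1 hw).2))])
  rw [this]
  simp only [Function.comp, Equiv.swap_apply_left]
  ring

lemma swap_leaf {a b : V} (ha : Leaf G a) (hb : Leaf G b) {v : V} (hv : Leaf G v) :
    Leaf G (Equiv.swap a b v) := by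
  rw [Equiv.swap_apply_def]
  split_ifs <;> assumption

lemma Lab.swap {p : ℕ} {Sp : Finset V} {t : ℤ} {lab : V → ℤ} (L : T.Lab p Sp t lab) {a b : V}
    (ha : Leaf G a) (hb : Leaf G b) (ha' : a ∈ Sp) (hb' : b ∈ Sp) :
    T.Lab p Sp t (lab ∘ Equiv.swap a b) := by
  refine ⟨fun v hv => L.l1 _ (swap_leaf ha hb hv), fun u v hu hv e =>
    (Equiv.swap a b).injective (L.l2 _ _ (swap_leaf ha hb hu) (swap_leaf ha hb hv) e), ?_⟩
  intro v h1 h2
  rw [S_swap0 lab (fun h => (h1 a h).2 ha') (fun h => (h1 b h).2 hb')]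
  exact L.l3 v h1 h2

lemma TB (T : Rt G r) {p : ℕ} (nl : (univ.filter (fun v => Leaf G v)).card = p) {w1 w2 ly : V}
    (n : w1 ≠ w2) (ne1 : (T.ch w1).Nonempty) (ne2 : (T.ch w2).Nonempty)
    (lf1 : ∀ l ∈ T.ch w1, Leaf G l) (lf2 : ∀ l ∈ T.ch w2, Leaf G l) (h2 : Leaf G ly)
    (n1 : ly ∉ T.ch w1) (n2 : ly ∉ T.ch w2)
    (d1 d2 v : ℤ) (a1 : 0 ≤ d1) (a2 : 0 ≤ d2) (v3 : 3 ≤ v) (b1 : d1 + v ≤ p - 1)
    (b2 : d2 + v ≤ p - 1) : T.TBc p w1 w2 d1 d2 v := by
  have c1 := ne1.card_pos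
  have c2 := ne2.card_pos
  by_cases k1 : (T.ch w1).card = 1 ∧ (T.ch w2).card = 1
  · obtain ⟨a, ha⟩ := card_eq_one.1 k1.1
    obtain ⟨b, hb⟩ := card_eq_one.1 k1.2
    have m : a ∈ T.ch w1 := by simp [ha]
    have m' : b ∈ T.ch w2 := by simp [hb]
    have key : ∃ s t : ℤ, s ≠ t ∧ (s = v ∨ s = v - 1) ∧ (t = v ∨ t = v - 1) ∧ d1 + s ≠ d2 + t := by
      by_cases k : d2 = d1 + 1
      · exact ⟨v - 1, v, by omega, by omega, by omega, by omega⟩
      · exact ⟨v, v - 1, by omega, by omega, by omega, by omega⟩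
    obtain ⟨s, t, q1, q2, q3, q4⟩ := key
    obtain ⟨lab, L, e1, e2⟩ := T.lab2 nl (lf1 a m) (lf2 b m') (ch_ne n m m') (d1 + s) (d2 + t)
      (by omega)
    have e : T.S lab w1 = d1 + s := by rw [S, ha, sum_singleton, e1]
    have e' : T.S lab w2 = d2 + t := by rw [S, hb, sum_singleton, e2]
    exact ⟨_, lab, L.mono (by omega), by simp [m, m'], by omega, by omega, by omega⟩
  by_cases k2 : (T.ch w1).card ≤ 2 ∧ 2 ≤ (T.ch w2).card
  · exact T.TB1 nl n lf1 lf2 d1 d2 v a1 v3 b1 b2 (by omega) k2.2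
  by_cases k3 : (T.ch w2).card ≤ 2 ∧ 2 ≤ (T.ch w1).card
  · exact (T.TB1 nl n.symm lf2 lf1 d2 d1 v a2 v3 b2 b1 (by omega) k3.2).symm
  obtain ⟨A, sA, cA⟩ := exists_subset_card_eq (show 3 ≤ (T.ch w1).card by omega)
  obtain ⟨a, ma, b, mb, c, mc, ab, ac, bc⟩ := two_lt_card.1 (show 2 < (T.ch w2).card by omega)
  obtain ⟨g, g1, g2, g3⟩ := enum A
  have dj : Disjoint (T.ch w1) (T.ch w2) := disjoint_left.2 (fun x h h' => ch_ne n h h' rfl)
  have cp := leaf_card nl (insert ly (T.ch w1 ∪ T.ch w2)) (by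
    intro v hv
    simp only [mem_insert, mem_union] at hv
    rcases hv with rfl | h | h
    exacts [h2, lf1 v h, lf2 v h])
  rw [card_insert_of_notMem (by simp [n1, n2]), card_union_of_disjoint dj] at cp
  have nA : ∀ x ∈ T.ch w2, x ∉ A := fun x h h' => ch_ne n (sA h') h rfl
  rw [cA] at g1 g3
  have na := nA a ma
  have nb := nA b mb
  have nc := nA c mc
  obtain ⟨lab, L, e⟩ := T.labk nl (insert a (insert b (insert c A)))
    (fun x => if x ∈ A then p - 1 - g x else if x = a then p else if x = b then p - 1 else 1) 1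
    (by
      intro v hv
      simp only [mem_insert] at hv
      rcases hv with rfl | rfl | rfl | h
      exacts [lf2 _ ma, lf2 _ mb, lf2 _ mc, lf1 v (sA h)])
    (by
      intro v hv
      split_ifs with k
      · have := g1 v k; omega
      all_goals omega)
    (by
      intro x hx y hy e
      simp only [coe_insert, Set.mem_insert_iff, mem_coe] at hx hy
      dsimp only at e
      rcases hx with rfl | rfl | rfl | hx <;> rcases hy with rfl | rfl | rfl | hy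
      all_goals first
        | rfl
        | (exfalso; simp [na, nb, nc, ab.symm, ac.symm, bc.symm] at e <;> omega)
        | (exfalso; have := g1 _ hy; simp [na, nb, nc, ab.symm, ac.symm, bc.symm, hy] at e <;> omega)
        | (exfalso; have := g1 _ hx; simp [na, nb, nc, ab.symm, ac.symm, bc.symm, hx] at e <;> omega)
        | (rw [if_pos hx, if_pos hy] at e; exact g2 hx hy (by omega)))
    (by
      intro z z1 z2
      exact ⟨c, by simp, by simp [nc, ac.symm, bc.symm]; omega⟩)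
  have cS : (insert a (insert b (insert c A))).card ≤ 6 := by
    have := card_insert_le a (insert b (insert c A))
    have := card_insert_le b (insert c A)
    have := card_insert_le c A
    omega
  have L' := L.mono (show (p : ℤ) - 3 ≤ _ by omega)
  have ea : lab a = p := by rw [e a (by simp)]; simp [na]
  have eb : lab b = p - 1 := by rw [e b (by simp)]; simp [nb, ab.symm]
  have eA : ∀ x ∈ A, lab x = p - 1 - g x := fun x hx => by rw [e x (by simp [hx])]; simp [hx]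
  have s1 := L.sub_le lf1 A sA
  rw [sum_congr rfl eA, sum_sub_distrib, sum_const, cA] at s1
  simp only [nsmul_eq_mul] at s1
  have s2 := L.sub_le lf2 {a, b} (by intro x; simp; rintro (rfl | rfl) <;> assumption)
  rw [sum_pair ab, card_pair ab] at s2
  have sp : ∀ l ∈ insert a (insert b (insert c A)), l ∈ T.ch w1 ∨ l ∈ T.ch w2 := by
    intro v hv
    simp only [mem_insert] at hv
    rcases hv with rfl | rfl | rfl | h
    exacts [Or.inr ma, Or.inr mb, Or.inr mc, Or.inl (sA h)]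
  by_cases k : T.S lab w1 - d1 = T.S lab w2 - d2
  · obtain ⟨z, hz, gz⟩ : ∃ z ∈ A, g z = 1 := by
      by_contra h
      push Not at h
      have e1 : A.image g ⊆ {2, 3} := by
        intro u hu
        obtain ⟨x, hx, rfl⟩ := mem_image.1 hu
        have := g1 x hx
        have := h x hx
        simp; omega
      have e2 := card_le_card e1
      rw [card_image_of_injOn g2, cA] at e2
      have : ({2, 3} : Finset ℤ).card ≤ 2 := card_le_two
      omega
    have t1 : T.S (lab ∘ Equiv.swap z b) w1 = T.S lab w1 - lab z + lab b :=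
      sum_swap1 lab (sA hz) (fun h => ch_ne n h mb rfl)
    have t2 : T.S (lab ∘ Equiv.swap z b) w2 = T.S lab w2 - lab b + lab z := by
      rw [Equiv.swap_comm]
      exact sum_swap1 lab mb (fun h => nA z h hz)
    have := eA z hz
    exact ⟨_, _, L'.swap (lf1 z (sA hz)) (lf2 b mb) (by simp [hz]) (by simp), sp,
      by omega, by omega, by omega⟩
  · exact ⟨_, lab, L', sp, k, by omega, by omega⟩

end Rt

end Pool.Agent.H.MP_033e98_co
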