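import Mathlib
import Pool.Agent.H.MP_033e98_co.E

namespace Pool.Agent.H.MP_033e98_co

open Finset

variable {V : Type*} [Fintype V] [DecidableEq V] {G : SimpleGraph V} [DecidableRel G.Adj] {r : V}

namespace Rt

variable {T : Rt G r}

lemma Ch.sub {p : ℕ} {c y : V} (B : T.Base p c y) {v w : V} {C : Finset V} (h : T.Ch v C w)
    (n1 : v ≠ c) (n2 : T.top v ≠ y) : ∀ u ∈ insert w C, u ∈ Dn G r c y := by
  intro u hu
  obtain ⟨e1, e2, e3, e4, -⟩ := h.el u hu
  refine mem_Dn.2 ⟨e2, e1, ?_, ?_⟩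
  · rintro rfl
    rcases e4 with e4 | e4
    · exact n1 e4.symm
    · rw [(T.mem_ch.1 B.hc).2] at e4
      exact (h.el r (mem_insert_of_mem e4)).1 rfl
  · rintro rfl
    exact n2 (e3.symm.trans (T.top_self (T.mem_ch.1 B.hy).2))

lemma Ch.mixv {v w : V} {C : Finset V} (h : T.Ch v C w) (p : ℤ) (lab : V → ℤ) {xq xc : V → ℤ}
    (e : ∀ u ∈ insert w C, xq u = xc u) :
    (∀ u ∈ C, T.val p (mix G lab xq) u = T.val p xc u) ∧
      T.val p (mix G lab xq) w = T.S lab w - (p - xc w) := by
  have e' : ∀ u ∈ insert w C, mix G lab xq u = xc u := fun u hu => by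
    rw [mix_int (h.el u hu).2.1, e u hu]
  refine ⟨h.val_congr p e', ?_⟩
  rw [val, e' w (mem_insert_self _ _), S_mix h.lf]; ring

lemma Ch.q3 {v w : V} {C : Finset V} (h : T.Ch v C w) :
    ∀ u ∈ insert w C, ∀ z ∈ T.ch u, Leaf G z ∨ z ∈ insert w C := by
  intro u hu z hz
  rcases mem_insert.1 hu with rfl | hu
  · exact Or.inl (h.lf z hz)
  · exact Or.inr (h.cl u hu z hz)

lemma Ch.nly {v w y ly : V} {C : Finset V} (h : T.Ch v C w) (n2 : T.top v ≠ y)
    (h1 : T.top ly = y) : ly ∉ T.ch w := by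
  intro k
  have a := h.el w (mem_insert_self _ _)
  exact n2 (by rw [← h1, T.top_ch a.1 k, a.2.2.1])

lemma anti (s : ℤ) : StrictAnti (fun i : ℕ => s - i) := fun i j h => by
  simp only; omega

lemma OD {p : ℕ} {c y : V} (B : T.Base p c y) {v lp : V} (hv : T.Simp v)
    (h1 : T.par v = r ∨ T.par v = c) (n1 : v ≠ c) (n2 : v ≠ y) (hl : Leaf G lp)
    (h2 : T.par lp = r ∨ T.par lp = c) :
    ∃ x, T.Post p c y p (p + 1) x ∧ x v = p ∧ x lp = p := by
  have hc := T.mem_ch.1 B.hc
  have p3 := B.p3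
  have tp : ∀ u, u ≠ r → u ≠ y → (T.par u = r ∨ T.par u = c) → T.top u ≠ y := by
    intro u a1 a2 a3
    rcases a3 with k | k
    · rwa [T.top_self k]
    · rw [T.top_ch hc.1 (T.mem_ch.2 ⟨a1, k⟩), T.top_self hc.2]; exact B.cy
  have tv := tp v hv.ne.1 n2 h1
  obtain ⟨C, w, h, hn⟩ := chain hv
  obtain ⟨xc, N⟩ := hn p (fun i => (p : ℤ) - 1 - i) p (anti _) (by simp) le_rfl
  have sub := h.sub B n1 tv
  have cK : (insert w C).card = C.card + 1 := card_insert_of_notMem h.wn
  have cD := B.card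
  have cle : (insert w C).card ≤ _ := card_le_card sub
  obtain ⟨ly, y1, y2, y3⟩ := T.leaf_below B.hy
  have wD := mem_Dn.1 (sub w (mem_insert_self _ _))
  have up := (N.up w (mem_insert_self _ _)).1
  have b0 := N.b0
  have b1 := N.b1 (C.card - 1)
  have b2 := N.b2 (C.card - 1)
  have b3 := N.b3
  simp only [Nat.cast_zero] at b1 b2 b3
  obtain ⟨Sp, lab, L, s1, s2, s3⟩ := T.OB B.nl h.ne h.lf hl y2
    (by
      intro k
      have := (T.mem_ch.1 k).2
      rcases h2 with e | e
      · exact wD.2.1 (this.symm.trans e)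
      · exact wD.2.2.1 (this.symm.trans e))
    (h.nly tv y3)
    (by
      rintro rfl
      exact tp lp y1 (fun e => B.iy (e ▸ hl)) h2 y3)
    (p - xc w) (p - 1 - C.card) (by omega) (by omega) (by omega) (by omega) (by omega)
  obtain ⟨m1, m2⟩ := h.mixv p lab (xq := xc) (fun _ _ => rfl)
  have vC : ∀ u ∈ C, (p : ℤ) - C.card ≤ T.val p (mix G lab xc) u ∧
      T.val p (mix G lab xc) u ≤ p - 1 := by
    intro u hu
    obtain ⟨i, i1, i2⟩ := N.vals u hu
    rw [m1 u hu, i2]; omega
  obtain ⟨x, P, e1, e2⟩ := core2 B p (p + 1) le_rfl (by omega) L xc (insert w C) sub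
    (by
      intro u hu
      obtain ⟨a, b⟩ := N.up u hu
      refine ⟨?_, a⟩
      rcases b with rfl | ⟨i, i1, i2⟩
      · rw [N.top]; omega
      · omega)
    h.q3
    (by
      intro u hu
      rcases (h.el u hu).2.2.2.1 with rfl | k
      · exact Or.inr h1
      · exact Or.inl (mem_insert_of_mem k))
    (by
      rw [coe_insert, Set.injOn_insert (by simpa using h.wn)]
      refine ⟨fun a ha b hb e => N.inj ha hb (by rw [← m1 a ha, ← m1 b hb, e]), ?_⟩
      rintro ⟨u, hu, e⟩
      have := vC u hu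
      omega)
    (by
      intro u hu
      rcases mem_insert.1 hu with rfl | hu
      · omega
      · have := vC u hu; omega)
    (by omega)
    (by
      intro l k
      rcases s1 l k with rfl | k
      · exact Or.inr (h2.imp id Or.inl)
      · left; rw [(T.mem_ch.1 k).2]; exact mem_insert_self _ _)
  exact ⟨x, P, by rw [e2 v h.vm, N.top], by rw [e1 lp hl, s2]⟩

lemma TD {p : ℕ} {c y : V} (B : T.Base p c y) {v z : V} (hv : T.Simp v) (hz : T.Simp z)
    (h1 : T.par v = c) (h2 : T.par z = r) (n1 : z ≠ c) (n2 : z ≠ y) :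
    ∃ x, T.Post p c y p (p + 1) x ∧ x v = p ∧ x z = p := by
  have hc := T.mem_ch.1 B.hc
  have p3 := B.p3
  have tv : T.top v = c := by rw [T.top_ch hc.1 (T.mem_ch.2 ⟨hv.ne.1, h1⟩), T.top_self hc.2]
  have tz : T.top z = z := T.top_self h2
  have tv' : T.top v ≠ y := tv ▸ B.cy
  have tz' : T.top z ≠ y := tz.symm ▸ n2
  obtain ⟨C, w, h, hn⟩ := chain hv
  obtain ⟨C', w', h', hn'⟩ := chain hz
  obtain ⟨xc, N⟩ := hn p (fun i => (p : ℤ) - 1 - i) p (anti _) (by simp) le_rfl
  obtain ⟨xc', N'⟩ := hn' p (fun i => (p : ℤ) - 1 - C.card - i) p (anti _) (by simp; omega) le_rfl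
  have sub := h.sub B (fun e => hc.1 (by rw [← h1, e, hc.2])) tv'
  have sub' := h'.sub B n1 tz'
  have dj : ∀ u ∈ insert w' C', u ∉ insert w C := by
    intro u a b
    exact n1 (by rw [← tz, ← (h'.el u a).2.2.1, (h.el u b).2.2.1, tv])
  have cK : (insert w C).card = C.card + 1 := card_insert_of_notMem h.wn
  have cK' : (insert w' C').card = C'.card + 1 := card_insert_of_notMem h'.wn
  have cU : (insert w C ∪ insert w' C').card = C.card + C'.card + 2 := by
    rw [card_union_of_disjoint (disjoint_right.2 dj)]; omega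
  have subU : ∀ u ∈ insert w C ∪ insert w' C', u ∈ Dn G r c y := by
    intro u hu
    rcases mem_union.1 hu with k | k
    exacts [sub u k, sub' u k]
  have cD := B.card
  have cle : (insert w C ∪ insert w' C').card ≤ _ := card_le_card subU
  obtain ⟨ly, y1, y2, y3⟩ := T.leaf_below B.hy
  have up := (N.up w (mem_insert_self _ _)).1
  have up' := (N'.up w' (mem_insert_self _ _)).1
  have b0 := N.b0
  have b1 := N.b1 (C.card - 1)
  have b0' := N'.b0
  have b1' := N'.b1 (C'.card - 1)
  have ww : w ≠ w' := fun e => dj w' (mem_insert_self _ _) (e ▸ mem_insert_self _ _)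
  obtain ⟨Sp, lab, L, s1, s2, s3, s4⟩ := T.TB B.nl ww h.ne h'.ne h.lf h'.lf y2 (h.nly tv' y3)
    (h'.nly tz' y3) (p - xc w) (p - xc' w') (p - 1 - C.card - C'.card) (by omega) (by omega)
    (by omega) (by omega) (by omega)
  set xq : V → ℤ := fun u => if u ∈ insert w C then xc u else xc' u with hxq
  have x1 : ∀ u ∈ insert w C, xq u = xc u := fun u hu => if_pos hu
  have x2 : ∀ u ∈ insert w' C', xq u = xc' u := fun u hu => if_neg (dj u hu)
  obtain ⟨m1, m2⟩ := h.mixv p lab x1
  obtain ⟨m1', m2'⟩ := h'.mixv p lab x2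
  have vC : ∀ u ∈ C, (p : ℤ) - C.card ≤ T.val p (mix G lab xq) u ∧
      T.val p (mix G lab xq) u ≤ p - 1 := by
    intro u hu
    obtain ⟨i, i1, i2⟩ := N.vals u hu
    rw [m1 u hu, i2]; omega
  have vC' : ∀ u ∈ C', (p : ℤ) - C.card - C'.card ≤ T.val p (mix G lab xq) u ∧
      T.val p (mix G lab xq) u ≤ p - 1 - C.card := by
    intro u hu
    obtain ⟨i, i1, i2⟩ := N'.vals u hu
    rw [m1' u hu, i2]; omega
  obtain ⟨x, P, e1, e2⟩ := core2 B p (p + 1) le_rfl (by omega) L xq _ subU
    (by
      intro u hu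
      rcases mem_union.1 hu with hu | hu
      · obtain ⟨a, b⟩ := N.up u hu
        rw [x1 u hu]
        refine ⟨?_, a⟩
        rcases b with rfl | ⟨i, i1, i2⟩
        · rw [N.top]; omega
        · omega
      · obtain ⟨a, b⟩ := N'.up u hu
        rw [x2 u hu]
        refine ⟨?_, a⟩
        rcases b with rfl | ⟨i, i1, i2⟩
        · rw [N'.top]; omega
        · omega)
    (by
      intro u hu z hz
      rcases mem_union.1 hu with hu | hu
      · exact (h.q3 u hu z hz).imp id (mem_union_left _)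
      · exact (h'.q3 u hu z hz).imp id (mem_union_right _))
    (by
      intro u hu
      rcases mem_union.1 hu with hu | hu
      · rcases (h.el u hu).2.2.2.1 with rfl | k
        · exact Or.inr (Or.inr h1)
        · exact Or.inl (mem_union_left _ (mem_insert_of_mem k))
      · rcases (h'.el u hu).2.2.2.1 with rfl | k
        · exact Or.inr (Or.inl h2)
        · exact Or.inl (mem_union_right _ (mem_insert_of_mem k)))
    (by
      intro a ha b hb e
      simp only [coe_union, coe_insert, Set.mem_union, Set.mem_insert_iff, mem_coe] at ha hb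
      rcases ha with (rfl | ha) | (rfl | ha) <;> rcases hb with (rfl | hb) | (rfl | hb)
      all_goals first
        | rfl
        | exact N.inj ha hb (by rw [← m1 a ha, ← m1 b hb, e])
        | exact N'.inj ha hb (by rw [← m1' a ha, ← m1' b hb, e])
        | (exfalso
           try have := vC _ ha
           try have := vC _ hb
           try have := vC' _ ha
           try have := vC' _ hb
           omega))
    (by
      intro u hu
      simp only [mem_union, mem_insert] at hu
      rcases hu with (rfl | hu) | (rfl | hu)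
      · omega
      · have := vC u hu; omega
      · omega
      · have := vC' u hu; omega)
    (by omega)
    (by
      intro l k
      left
      rcases s1 l k with k | k <;> rw [(T.mem_ch.1 k).2] <;> simp)
  exact ⟨x, P, by rw [e2 v (mem_union_left _ h.vm), x1 v h.vm, N.top],
    by rw [e2 z (mem_union_right _ h'.vm), x2 z h'.vm, N'.top]⟩

lemma core0 {p : ℕ} {c y : V} (B : T.Base p c y) {Sp : Finset V} {lab : V → ℤ}
    (L : T.Lab p Sp (p - 1) lab) (sp : ∀ l ∈ Sp, T.par l = r ∨ T.par l = c) :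
    ∃ x, T.Post p c y p (p + 1) x ∧ ∀ v, Leaf G v → x v = lab v := by
  obtain ⟨x, P, e1, -⟩ := core2 B p (p + 1) le_rfl (by omega) L lab ∅ (by simp) (by simp) (by simp)
    (by simp) (by simp) (by simp) (by simp) (fun l hl => Or.inr ((sp l hl).imp id Or.inl))
  exact ⟨x, P, e1⟩

lemma RR_ge {p w1 w2 : ℤ} {c y : V} {x : V → ℤ} (P : T.Post p c y w1 w2 x) (A : Finset V)
    (hA : ∀ z ∈ A, z ∈ T.ch r ∧ z ≠ c ∧ z ≠ y) : ∑ z ∈ A, x z ≤ T.RR c y x := by
  refine sum_le_sum_of_subset_of_nonneg ?_ ?_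
  · intro z hz
    have := hA z hz
    simp only [mem_erase]; tauto
  · intro z hz _
    simp only [mem_erase] at hz
    have := P.rng z (T.mem_ch.1 hz.2.2).1 hz.2.1 hz.1
    omega

lemma finp {p : ℕ} {c y z : V} (B : T.Base p c y) {x : V → ℤ} (P : T.Post p c y p (p + 1) x)
    (h1 : T.S x c = p) (hz : z ∈ T.ch r ∧ z ≠ c ∧ z ≠ y) (h2 : x z = p) : Good G p := by
  have := RR_ge P {z} (by simpa using hz)
  rw [sum_singleton] at this
  exact fin1 B (x := x) (by rw [h1]; exact P) (by omega) (by omega) (by omega)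

lemma single2 {p : ℕ} {c y a z : V} (B : T.Base p c y) (ha : T.ch c = {a}) (la : Leaf G a)
    (hz : z ∈ T.ch r) (lz : Leaf G z) : Good G p := by
  have p3 := B.p3
  have hc := T.mem_ch.1 B.hc
  have hy := T.mem_ch.1 B.hy
  have ma : a ∈ T.ch c := by simp [ha]
  have az : a ≠ z := ch_ne hc.1 ma hz
  have zc : z ≠ c := fun e => B.ic (e ▸ lz)
  have zy : z ≠ y := fun e => B.iy (e ▸ lz)
  obtain ⟨lab, L, e1, e2⟩ := T.lab2 B.nl la lz az p (p - 1) (by omega)
  obtain ⟨x, P, e⟩ := core0 B L (by simp [(T.mem_ch.1 ma).2, (T.mem_ch.1 hz).2])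
  have xa : x a = p := by rw [e a la, e1]
  have xz : x z = p - 1 := by rw [e z lz, e2]
  have sc : T.S x c = p := by rw [S, ha, sum_singleton, xa]
  have rr := RR_ge P {z} (by simp [hz, zc, zy])
  rw [sum_singleton] at rr
  by_cases k : T.RR c y x = p - 1 ∧ T.S x y = p
  swap
  · exact fin1 B (x := x) (by rw [sc]; exact P) (by omega) (by omega) (by omega)
  set x' := x ∘ Equiv.swap a z with hx'
  have e0 : ∀ v, ¬ Leaf G v → x' v = x v := fun v hv => by
    rw [hx', Function.comp, Equiv.swap_apply_of_ne_of_ne (fun (h : v = a) => hv (h ▸ la))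
      (fun (h : v = z) => hv (h ▸ lz))]
  have eS : ∀ v, v ≠ r → v ≠ c → T.S x' v = T.S x v := fun v h1 h2 =>
    S_swap0 x (fun h => ch_ne h2 h ma rfl) (fun h => ch_ne h1 h hz rfl)
  have ev : ∀ v ∈ Dn G r c y, T.val p x' v = T.val p x v := by
    intro v hv
    rw [mem_Dn] at hv
    rw [val, val, e0 v hv.1, eS v hv.2.1 hv.2.2.1]
  have eI : (Dn G r c y).image (T.val p x') = (Dn G r c y).image (T.val p x) := image_congr ev
  have sc' : T.S x' c = p - 1 := by rw [S, ha, sum_singleton, hx']; simp [xz]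
  have sy' : T.S x' y = p := by rw [eS y hy.1 B.cy.symm, k.2]
  have rr' : T.RR y c x' = p := by
    have : T.RR c y x' = T.RR c y x - x z + x a := by
      rw [hx', Equiv.swap_comm]
      refine sum_swap1 x (by simp [hz, zc, zy]) ?_
      intro h
      exact ch_ne hc.1 ma (mem_of_mem_erase (mem_of_mem_erase h)) rfl
    rw [RR, erase_right_comm]
    rw [RR] at this
    omega
  have eD : Dn G r y c = Dn G r c y := by ext v; simp only [mem_Dn]; tauto
  have B' : T.Base p y c := ⟨B.p3, B.hr, B.hy, B.hc, B.cy.symm, B.iy, B.ic, B.nl, B.ni⟩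
  have P' : T.Post p y c p (p + 1) x' := by
    refine ⟨?_, ?_, ?_, ?_, ?_⟩
    · intro v h1 h2 h3
      by_cases lv : Leaf G v
      · have := swap_leaf la lz lv
        exact P.rng _ (fun h => B.hr (h ▸ this)) (fun h => B.ic (h ▸ this))
          (fun h => B.iy (h ▸ this))
      · rw [e0 v lv]; exact P.rng v h1 h3 h2
    · intro u v hu hv e
      exact (Equiv.swap a z).injective (P.lf _ _ (swap_leaf la lz hu) (swap_leaf la lz hv) e)
    · rw [eD]
      intro u hu v hv e
      exact P.inj hu hv (by rw [← ev u hu, ← ev v hv, e])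
    · rw [eD]
      intro v hv
      rw [ev v hv]; exact P.vl v hv
    · have c1 := B'.card
      have c2 : ((Dn G r y c).image (T.val p x')).card ≤ _ := card_image_le
      have c3 := cardI 1 (p - 1) (by omega)
      obtain ⟨u, hu, hu'⟩ := free_of_card ((Dn G r y c).image (T.val p x')) (Icc 1 (p - 1)) 0
        (by omega)
      rw [mem_Icc] at hu
      exact ⟨u, hu.1, by omega, by simpa using hu'⟩
  exact fin1 B' (x := x') (by rw [sy']; exact P') (by omega) (by omega) (by omega)

end Rt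

end Pool.Agent.H.MP_033e98_co
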