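import Mathlib
import Pool.Agent.H.MP_033e98_co.F

namespace Pool.Agent.H.MP_033e98_co

open Finset

variable {V : Type*} [Fintype V] [DecidableEq V] {G : SimpleGraph V} [DecidableRel G.Adj] {r : V}

namespace Rt

variable {T : Rt G r}

lemma labS (T : Rt G r) {p : ℕ} (nl : (univ.filter (fun v => Leaf G v)).card = p) {c b1 b2 : V}
    (lf : ∀ l ∈ T.ch c, Leaf G l) (q2 : 2 ≤ (T.ch c).card)
    (sm : (T.ch c).card * ((T.ch c).card + 1) ≤ 2 * p) (qp : (T.ch c).card + 2 ≤ p)
    (l1 : Leaf G b1) (l2 : Leaf G b2) (n1 : b1 ∉ T.ch c) (n2 : b2 ∉ T.ch c) :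
    ∃ lab, T.Lab p (insert b1 (insert b2 (T.ch c))) (p - 1) lab ∧ T.S lab c = p ∧ lab b1 = p ∧
      (b2 ≠ b1 → lab b2 = p - 2) := by
  obtain ⟨a, ha⟩ := card_pos.1 (show 0 < (T.ch c).card by omega)
  obtain ⟨g, g1, g2, g3⟩ := enum ((T.ch c).erase a)
  set q := (T.ch c).card with hq
  have ce : (((T.ch c).erase a).card : ℤ) = q - 1 := by rw [card_erase_of_mem ha]; omega
  rw [ce] at g1 g3
  set s := ∑ v ∈ (T.ch c).erase a, g v with hs
  have sm' : (q : ℤ) * (q + 1) ≤ 2 * p := by exact_mod_cast sm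
  have s1 : (q : ℤ) ≤ p - s := by nlinarith
  have s2 : 1 ≤ s ∧ s ≠ 2 := by
    by_cases k : q = 2
    · rw [k] at g3; omega
    · have : (3 : ℤ) ≤ q := by omega
      constructor <;> nlinarith
  have a1 : a ≠ b1 := fun e => n1 (e ▸ ha)
  have a2 : a ≠ b2 := fun e => n2 (e ▸ ha)
  set f : V → ℤ := fun v => if v ∈ (T.ch c).erase a then g v else if v = b1 then p else
    if v = b2 then p - 2 else p - s with hf
  have f0 : ∀ v ∈ (T.ch c).erase a, f v = g v := fun v hv => if_pos hv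
  have f1 : f b1 = p := by simp [hf, n1]
  have f2 : b2 ≠ b1 → f b2 = p - 2 := fun h => by simp [hf, n2, h]
  have f3 : f a = p - s := by simp [hf, a1, a2]
  have cs : ∀ v ∈ insert b1 (insert b2 (T.ch c)), (v = b1 ∧ f v = p) ∨ (v = b2 ∧ f v = p - 2) ∨
      (v = a ∧ f v = p - s) ∨ (v ∈ (T.ch c).erase a ∧ f v = g v ∧ 1 ≤ g v ∧ g v ≤ q - 1) := by
    intro v hv
    by_cases k1 : v = b1
    · exact Or.inl ⟨k1, k1 ▸ f1⟩
    by_cases k2 : v = b2
    · exact Or.inr (Or.inl ⟨k2, k2 ▸ f2 (k2 ▸ k1)⟩)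
    by_cases k3 : v = a
    · exact Or.inr (Or.inr (Or.inl ⟨k3, k3 ▸ f3⟩))
    have m : v ∈ (T.ch c).erase a := by simpa [k1, k2, k3] using hv
    exact Or.inr (Or.inr (Or.inr ⟨m, f0 v m, g1 v m⟩))
  obtain ⟨lab, L, e⟩ := T.labk nl (insert b1 (insert b2 (T.ch c))) f (q - 1)
    (by
      intro v hv
      simp only [mem_insert] at hv
      rcases hv with rfl | rfl | h
      exacts [l1, l2, lf v h])
    (by intro v hv; have := cs v hv; omega)
    (by
      intro x hx y hy e
      rcases cs x hx with h | h | h | h <;> rcases cs y hy with k | k | k | k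
      all_goals first
        | exact h.1.trans k.1.symm
        | exact g2 h.1 k.1 (by omega)
        | omega)
    (by
      intro z z1 z2
      have e : ((T.ch c).erase a).image g = Icc (1 : ℤ) (q - 1) := by
        apply eq_of_subset_of_card_le
        · intro z hz
          obtain ⟨v, hv, rfl⟩ := mem_image.1 hz
          exact mem_Icc.2 (g1 v hv)
        · rw [card_image_of_injOn g2]
          have := cardI 1 (q - 1) (by omega)
          omega
      have : z ∈ ((T.ch c).erase a).image g := by rw [e]; exact mem_Icc.2 ⟨z1, z2⟩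
      obtain ⟨v, hv, k⟩ := mem_image.1 this
      exact ⟨v, by simp [mem_of_mem_erase hv], by rw [f0 v hv, k]⟩)
  refine ⟨lab, L.mono ?_, ?_, by rw [e b1 (by simp), f1], fun h => by rw [e b2 (by simp), f2 h]⟩
  · have := card_insert_le b1 (insert b2 (T.ch c))
    have := card_insert_le b2 (T.ch c)
    omega
  · rw [S, ← add_sum_erase _ _ ha, e a (by simp [ha]), f3, sum_congr rfl
      (fun v hv => (e v (by simp [mem_of_mem_erase hv])).trans (f0 v hv))]
    ring

lemma small {p : ℕ} {c y z : V} (B : T.Base p c y) (lf : ∀ l ∈ T.ch c, Leaf G l)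
    (q2 : 2 ≤ (T.ch c).card) (sm : (T.ch c).card * ((T.ch c).card + 1) ≤ 2 * p)
    (hz : z ∈ T.ch r ∧ z ≠ c ∧ z ≠ y)
    (h : Leaf G z ∨ ((∀ l ∈ T.ch z, Leaf G l) ∧ 2 ≤ (T.ch z).card)) : Good G p := by
  have hc := T.mem_ch.1 B.hc
  have hz' := T.mem_ch.1 hz.1
  rcases h with h | h
  · obtain ⟨ly, y1, y2, y3⟩ := T.leaf_below B.hy
    have n1 : z ∉ T.ch c := fun k => ch_ne hc.1 k hz.1 rfl
    have n2 : ly ∉ T.ch c := fun k => B.cy (by rw [← y3, T.top_ch hc.1 k, T.top_self hc.2])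
    have n3 : z ≠ ly := fun e => hz.2.2 (by rw [← y3, ← e, T.top_self hz'.2])
    have cp := leaf_card B.nl (insert z (insert ly (T.ch c))) (by
      intro v hv
      simp only [mem_insert] at hv
      rcases hv with rfl | rfl | k
      exacts [h, y2, lf v k])
    rw [card_insert_of_notMem (by simp [n1, n3]), card_insert_of_notMem n2] at cp
    obtain ⟨lab, L, e1, e2, -⟩ := T.labS B.nl lf q2 sm (by omega) h h n1 n1
    obtain ⟨x, P, e⟩ := core0 B L (by
      intro l hl
      simp only [mem_insert] at hl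
      rcases hl with rfl | rfl | k
      exacts [Or.inl hz'.2, Or.inl hz'.2, Or.inr (T.mem_ch.1 k).2])
    exact finp B P (by rw [T.S_congr (fun w hw => e w (lf w hw)), e1]) hz (by rw [e z h, e2])
  · obtain ⟨a, ma, b, mb, ab⟩ := one_lt_card.1 (show 1 < (T.ch z).card by omega)
    have n1 : a ∉ T.ch c := fun k => ch_ne hz.2.1 ma k rfl
    have n2 : b ∉ T.ch c := fun k => ch_ne hz.2.1 mb k rfl
    have cp := leaf_card B.nl (insert a (insert b (T.ch c))) (by
      intro v hv
      simp only [mem_insert] at hv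
      rcases hv with rfl | rfl | k
      exacts [h.1 _ ma, h.1 _ mb, lf v k])
    rw [card_insert_of_notMem (by simp [n1, ab]), card_insert_of_notMem n2] at cp
    obtain ⟨lab, L, e1, e2, e3⟩ := T.labS B.nl lf q2 sm (by omega) (h.1 a ma) (h.1 b mb) n1 n2
    have e4 := e3 ab.symm
    have s := L.sub_le h.1 {a, b} (by intro x; simp; rintro (rfl | rfl) <;> assumption)
    rw [sum_pair ab, card_pair ab] at s
    have iz : ¬ Leaf G z := by rw [T.leaf_iff hz'.1]; exact ne_empty_of_mem ma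
    have vz : T.val p (mix G lab (fun _ => p)) z = T.S lab z := by
      rw [val, mix_int iz, S_mix h.1]; ring
    obtain ⟨x, P, k1, k2⟩ := core2 B p (p + 1) le_rfl (by omega) L (fun _ => p) {z}
      (by simp [mem_Dn, iz, hz'.1, hz.2]) (by simp; omega)
      (by simp only [mem_singleton, forall_eq]; exact fun w hw => Or.inl (h.1 w hw))
      (by simp [hz'.2]) (by simp)
      (by simp only [mem_singleton, forall_eq, vz, card_singleton]; omega) (by simp)
      (by
        intro l hl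
        simp only [mem_insert] at hl
        rcases hl with rfl | rfl | k
        · simp [(T.mem_ch.1 ma).2]
        · simp [(T.mem_ch.1 mb).2]
        · simp [(T.mem_ch.1 k).2])
    exact finp B P (by rw [T.S_congr (fun w hw => k1 w (lf w hw)), e1]) hz (k2 z (by simp))

omit [Fintype V] in
lemma mini0 (p w1 w2 lo : ℤ) (Sv : V → ℤ) (F : Finset V) (h : (F.card : ℤ) + 1 ≤ p - lo) :
    ∃ xq : V → ℤ, (∀ z ∈ F, lo ≤ xq z ∧ xq z ≤ p ∧ xq z + Sv z - p ≠ w1 ∧ xq z + Sv z - p ≠ w2) ∧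
      Set.InjOn (fun z => xq z + Sv z - p) F := by
  induction F using Finset.induction_on with
  | empty => exact ⟨fun _ => 0, by simp, by simp⟩
  | insert a F ha ih =>
    rw [card_insert_of_notMem ha] at h
    obtain ⟨xq, h1, h2⟩ := ih (by omega)
    have c1 := cardI lo p (by omega)
    have c2 := card_insert_le w1 (insert w2 (F.image (fun z => xq z + Sv z - p)))
    have c3 := card_insert_le w2 (F.image (fun z => xq z + Sv z - p))
    have c4 : (F.image (fun z => xq z + Sv z - p)).card ≤ _ := card_image_le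
    obtain ⟨t, t1, t2⟩ := free_of_card (insert w1 (insert w2 (F.image (fun z => xq z + Sv z - p))))
      (Icc lo p) (Sv a - p) (by omega)
    simp only [mem_insert, mem_image, not_or, not_exists, not_and, mem_Icc] at t1 t2
    have e0 : ∀ z ∈ F, Function.update xq a t z = xq z := fun z hz =>
      Function.update_of_ne (fun (k : z = a) => ha (k ▸ hz)) _ _
    refine ⟨Function.update xq a t, ?_, ?_⟩
    · intro z hz
      rcases mem_insert.1 hz with rfl | hz
      · rw [Function.update_self]; omega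
      · rw [e0 z hz]; exact h1 z hz
    · rw [coe_insert, Set.injOn_insert (by simpa using ha)]
      refine ⟨fun u hu v hv e => h2 hu hv (by simpa only [e0 u hu, e0 v hv] using e), ?_⟩
      rintro ⟨u, hu, e⟩
      simp only [e0 u hu, Function.update_self] at e
      exact t2.2.2 u hu (by omega)

omit [Fintype V] in
lemma mini (p w1 w2 : ℤ) (Sv : V → ℤ) (F : Finset V) :
    ∃ xq : V → ℤ, (∀ z ∈ F, p - 1 - F.card ≤ xq z ∧ xq z ≤ p ∧ xq z + Sv z - p ≠ w1 ∧
      xq z + Sv z - p ≠ w2) ∧ Set.InjOn (fun z => xq z + Sv z - p) F ∧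
      (F.card = 1 → w1 + 2 ≤ w2 → ∀ z ∈ F, p - 1 ≤ xq z) := by
  by_cases k : F.card = 1 ∧ w1 + 2 ≤ w2
  · obtain ⟨a, rfl⟩ := card_eq_one.1 k.1
    by_cases c : Sv a = w1 ∨ Sv a = w2
    · exact ⟨fun _ => p - 1, by simp; omega, by simp, by simp⟩
    · exact ⟨fun _ => p, by simp; omega, by simp, by simp⟩
  · obtain ⟨xq, h1, h2⟩ := mini0 p w1 w2 (p - 1 - F.card) Sv F (by omega)
    exact ⟨xq, h1, h2, fun a b => absurd ⟨a, b⟩ k⟩

def BigB (T : Rt G r) (p : ℕ) (w : V) : Prop :=
  (∀ l ∈ T.ch w, Leaf G l) ∧ 2 * p + 2 ≤ (T.ch w).card * ((T.ch w).card + 1)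

lemma Lab.big {p : ℕ} {Sp : Finset V} {t : ℤ} {lab : V → ℤ} (L : T.Lab p Sp t lab) {w : V}
    (h : T.BigB p w) : (p : ℤ) + 1 ≤ T.S lab w := by
  have a := L.sum_ge _ h.1
  have b : 2 * (p : ℤ) + 2 ≤ (T.ch w).card * ((T.ch w).card + 1) := by exact_mod_cast h.2
  rw [S]; omega

lemma bignum (p b q : ℕ) (h1 : 2 * p + 2 ≤ q * (q + 1)) (h2 : (b + 2) * q ≤ p)
    (h3 : b = 0 → 2 * q + 1 ≤ p) :
    4 ≤ q ∧ 9 ≤ p ∧ 18 + b * (b + 1) ≤ 2 * p ∧ 2 * b + 1 ≤ p := by
  by_cases k : b = 0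
  · have := h3 k
    subst k
    have : 4 ≤ q := by
      by_contra c
      have : q ≤ 3 := by omega
      interval_cases q <;> omega
    omega
  · have a : 2 * b + 4 ≤ q := by
      by_contra c
      have : q + 1 ≤ 2 * b + 4 := by omega
      nlinarith
    have : 1 ≤ b := by omega
    refine ⟨by omega, ?_, ?_, ?_⟩ <;> nlinarith

lemma big {p : ℕ} {c y w : V} (B : T.Base p c y) (d3 : 3 ≤ (T.ch r).card)
    (hb : ∀ z ∈ T.ch r, ¬ Leaf G z → z ≠ y → T.BigB p z) (bw : T.BigB p w) (wr : w ≠ r)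
    (hw : w = y ∨ T.par w ≠ r) : Good G p := by
  have hc := T.mem_ch.1 B.hc
  have bc := hb c B.hc B.ic B.cy
  set Sib := (T.ch r).filter (fun z => ¬ Leaf G z ∧ z ≠ c ∧ z ≠ y) with hSib
  set Lr := (T.ch r).filter (fun z => Leaf G z) with hLr
  have mS : ∀ z, z ∈ Sib ↔ z ∈ T.ch r ∧ ¬ Leaf G z ∧ z ≠ c ∧ z ≠ y := fun z => mem_filter
  have mL : ∀ z, z ∈ Lr ↔ z ∈ T.ch r ∧ Leaf G z := fun z => mem_filter
  have bS : ∀ z ∈ Sib, T.BigB p z := fun z hz =>
    hb z ((mS z).1 hz).1 ((mS z).1 hz).2.1 ((mS z).1 hz).2.2.2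
  have eR : ((T.ch r).erase c).erase y = Sib ∪ Lr := by
    ext z
    simp only [mem_erase, mem_union, mS, mL]
    constructor
    · rintro ⟨a1, a2, a3⟩
      by_cases k : Leaf G z
      · exact Or.inr ⟨a3, k⟩
      · exact Or.inl ⟨a3, k, a2, a1⟩
    · rintro (⟨a1, a2, a3, a4⟩ | ⟨a1, a2⟩)
      · exact ⟨a4, a3, a1⟩
      · exact ⟨fun e => B.iy (e ▸ a2), fun e => B.ic (e ▸ a2), a1⟩
  have dj : Disjoint Sib Lr := disjoint_left.2 (fun z a b => ((mS z).1 a).2.1 ((mL z).1 b).2)
  have cR : 1 ≤ Sib.card + Lr.card := by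
    rw [← card_union_of_disjoint dj, ← eR,
      card_erase_of_mem (mem_erase.2 ⟨B.cy.symm, B.hy⟩), card_erase_of_mem B.hc]
    omega
  have wc : w ≠ c := by
    rintro rfl
    rcases hw with k | k
    exacts [B.cy k, k hc.2]
  have wS : w ∉ Sib := by
    intro k
    have := (mS w).1 k
    rcases hw with k | k
    exacts [this.2.2.2 k, k (T.mem_ch.1 this.1).2]
  have cS : c ∉ Sib := fun k => ((mS c).1 k).2.2.1 rfl
  set F := insert c (insert w Sib) with hF
  have cF : F.card = Sib.card + 2 := by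
    rw [hF, card_insert_of_notMem (by simp [wc.symm, cS]), card_insert_of_notMem wS]
  have bF : ∀ z ∈ F, T.BigB p z ∧ z ≠ r := by
    intro z hz
    simp only [hF, mem_insert] at hz
    rcases hz with rfl | rfl | k
    exacts [⟨bc, hc.1⟩, ⟨bw, wr⟩, ⟨bS z k, (T.mem_ch.1 ((mS z).1 k).1).1⟩]
  obtain ⟨v0, m0, hmin⟩ := exists_min_image F (fun z => (T.ch z).card) ⟨c, by simp [hF]⟩
  have tot : (Sib.card + 2) * (T.ch v0).card + Lr.card ≤ p := by
    have e1 := leaf_card B.nl (F.biUnion T.ch ∪ Lr) (by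
      intro v hv
      rcases mem_union.1 hv with k | k
      · obtain ⟨z, z1, z2⟩ := mem_biUnion.1 k
        exact (bF z z1).1.1 v z2
      · exact ((mL v).1 k).2)
    rw [card_union_of_disjoint, card_biUnion] at e1
    · have := card_nsmul_le_sum F (fun z => (T.ch z).card) _ hmin
      rw [cF, smul_eq_mul] at this
      omega
    · intro a _ b _ ab
      exact disjoint_left.2 (fun x h h' => ch_ne ab h h' rfl)
    · rw [disjoint_left]
      intro v k k'
      obtain ⟨z, z1, z2⟩ := mem_biUnion.1 k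
      exact ch_ne (bF z z1).2 z2 ((mL v).1 k').1 rfl
  obtain ⟨u1, u2, u3, u4⟩ := bignum p Sib.card _ (bF v0 m0).1.2 (by omega)
    (by intro k; rw [k] at tot; omega)
  obtain ⟨A, sA, cA⟩ := exists_subset_card_eq (u1.trans (hmin c (by simp [hF])))
  obtain ⟨A', sA', cA'⟩ := exists_subset_card_eq (u1.trans (hmin w (by simp [hF])))
  obtain ⟨g, g1, g2, g3⟩ := enum A
  obtain ⟨g', g1', g2', -⟩ := enum A'
  rw [cA] at g1 g3
  rw [cA'] at g1'
  obtain ⟨E, E1, E2, E3⟩ : ∃ E ⊆ Lr, E.card ≤ 1 ∧ (Lr.Nonempty → E.Nonempty) := by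
    by_cases k : Lr.Nonempty
    · obtain ⟨l, hl⟩ := k
      exact ⟨{l}, by simpa using hl, by simp, by simp⟩
    · exact ⟨∅, by simp, by simp, fun h => absurd h k⟩
  have AA : ∀ v ∈ A', v ∉ A := fun v a b => ch_ne wc (sA' a) (sA b) rfl
  have LA : ∀ v ∈ Lr, v ∉ A := fun v a b => ch_ne hc.1 (sA b) ((mL v).1 a).1 rfl
  have LA' : ∀ v ∈ Lr, v ∉ A' := fun v a b => ch_ne wr (sA' b) ((mL v).1 a).1 rfl
  set M := (Icc (1 : ℤ) 4 ∪ Icc ((p : ℤ) - 4) (p - 1)) ∪ E.image (fun _ => (p : ℤ)) with hM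
  have mM : ∀ z, z ∈ M ↔ (1 ≤ z ∧ z ≤ 4) ∨ ((p : ℤ) - 4 ≤ z ∧ z ≤ p - 1) ∨ (E.Nonempty ∧ z = p) := by
    intro z
    simp only [hM, mem_union, mem_Icc, mem_image, or_assoc, Finset.Nonempty, exists_and_right,
      eq_comm (a := z)]
  have cSp : ((A ∪ A') ∪ E).card = 8 + E.card := by
    rw [card_union_of_disjoint, card_union_of_disjoint (disjoint_right.2 AA), cA, cA']
    rw [disjoint_right]
    intro v hv
    simp [LA v (E1 hv), LA' v (E1 hv)]
  obtain ⟨lab0, hl⟩ := T.labels B.nl ((A ∪ A') ∪ E) M 4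
    (by
      intro v hv
      simp only [mem_union] at hv
      rcases hv with (k | k) | k
      exacts [bc.1 v (sA k), bw.1 v (sA' k), ((mL v).1 (E1 k)).2])
    (by
      rw [cSp, hM, card_union_of_disjoint, card_union_of_disjoint,
        card_image_of_injOn (fun a ha b hb _ => card_le_one.1 E2 a ha b hb)]
      · have := cardI 1 4 (by omega)
        have := cardI ((p : ℤ) - 4) (p - 1) (by omega)
        omega
      · rw [disjoint_left]; intro z; simp; omega
      · rw [disjoint_left]; intro z; simp; omega)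
    (by intro z hz; rw [mM] at hz; omega)
    (by intro z z1 z2; rw [mM]; omega)
  have mk : ∀ (s : Bool), ∃ lab : V → ℤ, T.Lab p ((A ∪ A') ∪ E) (p - 1) lab ∧
      (∀ v ∈ A, lab v = if s then p - g v else g v) ∧ (∀ v ∈ E, lab v = p) ∧
      ∀ v, v ∉ A → v ∉ A' → v ∉ E → lab v = lab0 v := by
    intro s
    set f : V → ℤ := fun v => if v ∈ A then (if s then p - g v else g v) else
      if v ∈ A' then (if s then g' v else p - g' v) else p with hf
    have cs : ∀ v ∈ (A ∪ A') ∪ E, (v ∈ A ∧ f v = (if s then p - g v else g v) ∧ 1 ≤ g v ∧ g v ≤ 4) ∨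
        (v ∈ A' ∧ f v = (if s then g' v else p - g' v) ∧ 1 ≤ g' v ∧ g' v ≤ 4) ∨
        (v ∈ E ∧ f v = p) := by
      intro v hv
      simp only [mem_union] at hv
      rcases hv with (k | k) | k
      · exact Or.inl ⟨k, if_pos k, g1 v k⟩
      · exact Or.inr (Or.inl ⟨k, by simp only [hf]; rw [if_neg (AA v k), if_pos k], g1' v k⟩)
      · exact Or.inr (Or.inr ⟨k, by simp only [hf]; rw [if_neg (LA v (E1 k)), if_neg (LA' v (E1 k))]⟩)
    have L := hl f
      (by
        intro v hv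
        rw [mM]
        rcases cs v hv with h | h | h
        · cases s <;> simp at h <;> omega
        · cases s <;> simp at h <;> omega
        · exact Or.inr (Or.inr ⟨⟨v, h.1⟩, h.2⟩))
      (by
        intro a ha b hb e
        rcases cs a ha with h | h | h <;> rcases cs b hb with k | k | k
        all_goals first
          | exact card_le_one.1 E2 a h.1 b k.1
          | exact g2 h.1 k.1 (by cases s <;> simp at h k <;> omega)
          | exact g2' h.1 k.1 (by cases s <;> simp at h k <;> omega)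
          | (exfalso; cases s <;> simp at h k <;> omega))
    refine ⟨_, L.mono (by rw [cSp]; push_cast; omega), ?_, ?_, ?_⟩
    · intro v hv
      rw [if_pos (by simp [hv])]; exact if_pos hv
    · intro v hv
      rw [if_pos (by simp [hv])]
      simp only [hf]; rw [if_neg (LA v (E1 hv)), if_neg (LA' v (E1 hv))]
    · intro v a1 a2 a3
      exact if_neg (by simp [a1, a2, a3])
  have run : ∀ (lab : V → ℤ) (w1 w2 : ℤ), T.Lab p ((A ∪ A') ∪ E) (p - 1) lab → (p : ℤ) ≤ w1 →
      (p : ℤ) ≤ w2 → ∃ x, T.Post p c y w1 w2 x ∧ T.S x c = T.S lab c ∧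
        ∑ v ∈ Lr, lab v + Sib.card * (p - 1 - Sib.card) ≤ T.RR c y x ∧
        T.RR c y x ≤ ∑ v ∈ Lr, lab v + Sib.card * p ∧
        (Sib.card = 1 → w1 + 2 ≤ w2 → ∑ v ∈ Lr, lab v + (p - 1) ≤ T.RR c y x) := by
    intro lab w1 w2 L a1 a2
    obtain ⟨xq, x1, x2, x3⟩ := mini p w1 w2 (T.S lab) Sib
    have vz : ∀ z ∈ Sib, T.val p (mix G lab xq) z = xq z + T.S lab z - p := fun z hz => by
      rw [val, mix_int ((mS z).1 hz).2.1, S_mix (bS z hz).1]
    obtain ⟨x, P, k1, k2⟩ := core2 B w1 w2 a1 a2 L xq Sib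
      (fun z hz => by
        have := (mS z).1 hz
        exact mem_Dn.2 ⟨this.2.1, (T.mem_ch.1 this.1).1, this.2.2⟩)
      (fun z hz => by have := x1 z hz; omega)
      (fun z hz v hv => Or.inl ((bS z hz).1 v hv))
      (fun z hz => Or.inr (Or.inl (T.mem_ch.1 ((mS z).1 hz).1).2))
      (fun a ha b hb e => x2 ha hb (by simpa only [vz a ha, vz b hb] using e))
      (fun z hz => by
        have := x1 z hz
        have := L.big (bS z hz)
        rw [vz z hz]; omega)
      (by omega)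
      (by
        intro l hl
        simp only [mem_union] at hl
        rcases hl with (k | k) | k
        · exact Or.inr (Or.inr (Or.inl (T.mem_ch.1 (sA k)).2))
        · rw [(T.mem_ch.1 (sA' k)).2]
          have := L.big bw
          exact Or.inr (Or.inr (Or.inr (by omega)))
        · exact Or.inr (Or.inl (T.mem_ch.1 ((mL l).1 (E1 k)).1).2))
    have eRR : T.RR c y x = Sib.sum xq + ∑ v ∈ Lr, lab v := by
      rw [RR, eR, sum_union dj, sum_congr rfl k2,
        sum_congr rfl (fun v hv => k1 v ((mL v).1 hv).2)]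
    have i1 := card_nsmul_le_sum Sib xq _ (fun z hz => (x1 z hz).1)
    have i2 := sum_le_card_nsmul Sib xq _ (fun z hz => (x1 z hz).2.1)
    rw [nsmul_eq_mul] at i1 i2
    refine ⟨x, P, T.S_congr (fun v hv => k1 v (bc.1 v hv)), by omega, by omega, ?_⟩
    intro b1 b2
    have i3 := card_nsmul_le_sum Sib xq _ (x3 b1 b2)
    rw [b1] at i3
    simp only [one_smul] at i3
    omega
  obtain ⟨l1, L1, a1, a2, a3⟩ := mk true
  obtain ⟨l2, L2, b1, b2, b3⟩ := mk false
  simp only [if_true] at a1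
  simp only [Bool.false_eq_true, if_false] at b1
  have eL : ∑ v ∈ Lr, l1 v = ∑ v ∈ Lr, l2 v := sum_congr rfl (fun v hv => by
    by_cases k : v ∈ E
    · rw [a2 v k, b2 v k]
    · rw [a3 v (LA v hv) (LA' v hv) k, b3 v (LA v hv) (LA' v hv) k])
  have eS : T.S l1 c = T.S l2 c + (4 * p - 20) := by
    have e : ∑ v ∈ T.ch c \ A, l1 v = ∑ v ∈ T.ch c \ A, l2 v := sum_congr rfl (fun v hv => by
      rw [mem_sdiff] at hv
      have n1 : v ∉ A' := fun k => ch_ne wc (sA' k) hv.1 rfl
      have n2 : v ∉ E := fun k => ch_ne hc.1 hv.1 ((mL v).1 (E1 k)).1 rfl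
      rw [a3 v hv.2 n1 n2, b3 v hv.2 n1 n2])
    rw [S, S, ← sum_sdiff sA, ← sum_sdiff sA, e, sum_congr rfl a1, sum_congr rfl b1,
      sum_sub_distrib, sum_const, cA, nsmul_eq_mul]
    push_cast at g3 ⊢
    linarith
  have s2 := L2.big bc
  by_cases k : T.S l2 c ≤ ∑ v ∈ Lr, l2 v + Sib.card * (p - 1 - Sib.card)
  · obtain ⟨x, P, r1, r2, -⟩ := run l2 (T.S l2 c) (T.S l2 c + 1) L2 (by omega) (by omega)
    exact fin1 B (x := x) (by rw [r1]; exact P) (by omega) (by omega) (by omega)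
  · obtain ⟨x, P, r1, r2, r3, r4⟩ := run l1 (T.S l1 c - p + 1) (T.S l1 c) L1 (by omega) (by omega)
    have u3' : 18 + (Sib.card : ℤ) * (Sib.card + 1) ≤ 2 * p := by exact_mod_cast u3
    have pos : 0 ≤ ∑ v ∈ Lr, l1 v :=
      sum_nonneg (fun v hv => by have := L1.l1 v ((mL v).1 hv).2; omega)
    refine fin2 B (x := x) (by rw [r1]; exact P) ?_ (by nlinarith)
    by_cases j : Lr.Nonempty
    · obtain ⟨l, hl⟩ := E3 j
      have := single_le_sum (f := l1) (s := Lr)
        (fun v hv => by have := L1.l1 v ((mL v).1 hv).2; omega) (E1 hl)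
      rw [a2 l hl] at this
      have : 0 ≤ (Sib.card : ℤ) * (p - 1 - Sib.card) := mul_nonneg (by omega) (by omega)
      omega
    · rw [not_nonempty_iff_eq_empty, ← card_eq_zero] at j
      by_cases j1 : Sib.card = 1
      · have := r4 j1 (by omega)
        omega
      · have : 2 * ((p : ℤ) - 1 - Sib.card) ≤ (Sib.card : ℤ) * (p - 1 - Sib.card) :=
          mul_le_mul_of_nonneg_right (by omega) (by omega)
        omega

end Rt

end Pool.Agent.H.MP_033e98_co
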