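import Mathlib
import Pool.Agent.H.MP_033e98_co.H

namespace Pool.Agent.H.MP_033e98_co

open Finset

variable {V : Type*} [Fintype V] [DecidableEq V] {G : SimpleGraph V} [DecidableRel G.Adj] {r : V}

namespace Rt

variable {T : Rt G r}

lemma star (T : Rt G r) {p : ℕ} (p3 : 3 ≤ p) (nl : (univ.filter (fun v => Leaf G v)).card = p)
    (hr : ¬ Leaf G r) (h : ∀ w ∈ T.ch r, Leaf G w) : Good G p := by
  have al : ∀ n v, T.rk v = n → v ≠ r → T.par v = r := by
    intro n
    induction n using Nat.strong_induction_on with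
    | _ n ih =>
      intro v hv h1
      by_contra k
      exact T.par_int hr h1 (h _ (T.mem_ch.2 ⟨k, ih _ (hv ▸ T.lt v h1) _ rfl k⟩))
  have al' : ∀ v, v ≠ r → v ∈ T.ch r := fun v hv => T.mem_ch.2 ⟨hv, al _ v rfl hv⟩
  obtain ⟨lab, L, -⟩ := T.labk nl ∅ (fun _ => 0) 0 (by simp) (by simp) (by simp) (by intro z; omega)
  have ir : ∀ v, ¬ Leaf G v → v = r := fun v hv => by
    by_contra k
    exact hv (h v (al' v k))
  refine T.fin0 p hr lab (fun v hv => L.l1 v (h v (al' v hv))) L.l2 ?_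
    (fun u v hu hv _ => (ir u hu).trans (ir v hv).symm)
  intro v hv
  rw [ir v hv, W, if_pos rfl, zero_add, S]
  have e : T.ch r = univ.filter (fun v => Leaf G v) := by
    ext v
    simp only [mem_filter, mem_univ, true_and]
    exact ⟨h v, fun k => al' v (fun e => hr (e ▸ k))⟩
  have := L.sum_ge _ h
  rw [show (T.ch r).card = p by rw [e, nl]] at this
  have p3' : (3 : ℤ) ≤ p := by exact_mod_cast p3
  nlinarith

lemma dbl (T : Rt G r) {p : ℕ} (p3 : 3 ≤ p) (nl : (univ.filter (fun v => Leaf G v)).card = p)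
    (ni : (univ.filter (fun v => ¬ Leaf G v)).card ≤ p + 1) (hr : ¬ Leaf G r) {v : V}
    (hv : v ∈ T.ch r) (sv : T.Simp v) (h : ∀ w ∈ (T.ch r).erase v, Leaf G w)
    (hm : ∀ w, w ≠ r → (T.ch w).Nonempty → (∀ l ∈ T.ch w, Leaf G l) →
      ((T.ch r).erase v).card ≤ (T.ch w).card) : Good G p := by
  obtain ⟨C, w, c, hn⟩ := chain sv
  have wr := (c.el w (mem_insert_self _ _)).1
  have al : ∀ n u, T.rk u = n → u ≠ r → ¬ Leaf G u → u ∈ insert w C := by
    intro n
    induction n using Nat.strong_induction_on with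
    | _ n ih =>
      intro u hu h1 h2
      by_cases k : T.par u = r
      · by_cases k2 : u = v
        · exact k2 ▸ c.vm
        · exact absurd (h u (mem_erase.2 ⟨k2, T.mem_ch.2 ⟨h1, k⟩⟩)) h2
      · rcases c.q3 _ (ih _ (hu ▸ T.lt u h1) _ rfl k (T.par_int hr h1)) u (T.mem_ch.2 ⟨h1, rfl⟩)
          with a | a
        exacts [absurd a h2, a]
  set A := (T.ch r).erase v with hA
  have dj : Disjoint A (T.ch w) :=
    disjoint_left.2 (fun x a b => ch_ne wr b (mem_of_mem_erase a) rfl)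
  have eL : univ.filter (fun v => Leaf G v) = A ∪ T.ch w := by
    ext l
    simp only [mem_filter, mem_univ, true_and, mem_union]
    refine ⟨fun hl => ?_, fun k => k.elim (h l) (c.lf l)⟩
    have lr : l ≠ r := fun e => hr (e ▸ hl)
    by_cases k : T.par l = r
    · exact Or.inl (mem_erase.2 ⟨fun e => sv.ne.2 (e ▸ hl), T.mem_ch.2 ⟨lr, k⟩⟩)
    · rcases mem_insert.1 (al _ _ rfl k (T.par_int hr lr)) with a | a
      · exact Or.inr (T.mem_ch.2 ⟨lr, a⟩)
      · exact absurd hl (c.el l (c.cl _ a l (T.mem_ch.2 ⟨lr, rfl⟩))).2.1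
  have cL : A.card + (T.ch w).card = p := by rw [← card_union_of_disjoint dj, ← eL, nl]
  have cm := hm w wr c.ne c.lf
  have cA : 1 ≤ A.card := by
    have e1 : A.card = (T.ch r).card - 1 := card_erase_of_mem hv
    have e2 := card_pos.2 ⟨v, hv⟩
    rw [Leaf, T.deg_root] at hr
    omega
  have cC : C.card + 2 ≤ p + 1 := by
    have : insert r (insert w C) ⊆ univ.filter (fun v => ¬ Leaf G v) := by
      intro u hu
      rw [mem_filter]
      rcases mem_insert.1 hu with rfl | hu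
      exacts [⟨mem_univ _, hr⟩, ⟨mem_univ _, (c.el u hu).2.1⟩]
    have e := card_le_card this
    rw [card_insert_of_notMem (fun k => (c.el r k).1 rfl), card_insert_of_notMem c.wn] at e
    omega
  obtain ⟨g, g1, g2, g3⟩ := enum A
  obtain ⟨lab, L, e⟩ := T.labk nl A g 0 h (fun v hv => by have := g1 v hv; omega) g2
    (by intro z; omega)
  set s := ∑ v ∈ A, g v with hs
  have tot := L.sum_ge (A ∪ T.ch w) (fun v hv => (mem_union.1 hv).elim (h v) (c.lf v))
  rw [card_union_of_disjoint dj, cL, sum_union dj, sum_congr rfl e, ← hs] at tot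
  have q1 : (1 : ℤ) ≤ A.card := by exact_mod_cast cA
  have q2 : 2 * (A.card : ℤ) ≤ p := by omega
  have p3' : (3 : ℤ) ≤ p := by exact_mod_cast p3
  have s1 : 1 ≤ s := by nlinarith
  have s2 : 2 ≤ s → 4 ≤ p := by
    intro k
    by_contra k2
    have : (A.card : ℤ) = 1 := by omega
    rw [this] at g3
    omega
  have t1 : 2 * (p : ℤ) - 1 ≤ T.S lab w := by
    rw [S]
    by_cases k : (p : ℤ) = 3
    · have : (A.card : ℤ) = 1 := by omega
      rw [this] at g3
      rw [k] at tot ⊢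
      omega
    · have : (4 : ℤ) ≤ p := by omega
      nlinarith
  have t2 : s + p - 1 ≤ T.S lab w := by
    rw [S]
    nlinarith [sq_nonneg ((A.card : ℤ) - 1)]
  obtain ⟨xc, N⟩ := hn p (fun i => if s < (p : ℤ) - i then p - i else p - i - 1) p
    (fun i j hij => by simp only; split_ifs <;> omega) (by split_ifs <;> omega) le_rfl
  obtain ⟨m1, m2⟩ := c.mixv p lab (xq := xc) (fun _ _ => rfl)
  have xw : 2 ≤ xc w := by
    by_cases k : C.card = 0
    · rw [N.b0 k]; omega
    · have b1 := N.b1 (C.card - 1) (by omega)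
      have b2 := N.b2 (C.card - 1) (by omega)
      split_ifs at b1 b2 <;> omega
  have Wv : ∀ u, u ≠ r → T.W (mix G lab xc) u = T.val p (mix G lab xc) u + p := by
    intro u hu
    rw [W, val, if_neg hu]; ring
  have Wr : T.W (mix G lab xc) r = s + p := by
    rw [W, if_pos rfl, S, ← add_sum_erase _ _ hv, mix_int sv.ne.2, N.top, ← hA,
      sum_congr rfl (fun u hu => (mix_leaf (h u hu)).trans (e u hu))]
    ring
  have WC : ∀ u ∈ C, (p : ℤ) + 1 ≤ T.W (mix G lab xc) u ∧ T.W (mix G lab xc) u ≤ 2 * p ∧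
      T.W (mix G lab xc) u ≠ s + p := by
    intro u hu
    obtain ⟨i, i1, i2⟩ := N.vals u hu
    rw [Wv u (c.el u (mem_insert_of_mem hu)).1, m1 u hu, i2]
    split_ifs <;> omega
  have Ww : T.W (mix G lab xc) w = T.S lab w + xc w := by rw [Wv w wr, m2]; ring
  have cs : ∀ u, ¬ Leaf G u → u = r ∨ u = w ∨ u ∈ C := by
    intro u hu
    by_cases k : u = r
    · exact Or.inl k
    · exact Or.inr (mem_insert.1 (al _ u rfl k hu))
  refine T.fin0 p hr (mix G lab xc) ?_ ?_ ?_ ?_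
  · intro u hu
    by_cases k : Leaf G u
    · rw [mix_leaf k]; exact L.l1 u k
    · rw [mix_int k]
      obtain ⟨a, b⟩ := N.up u (al _ u rfl hu k)
      refine ⟨?_, a⟩
      rcases b with rfl | ⟨i, i1, i2⟩
      · rw [N.top]; omega
      · split_ifs at i2 <;> omega
  · intro a b ha hb k
    rw [mix_leaf ha, mix_leaf hb] at k
    exact L.l2 a b ha hb k
  · intro u hu
    rcases cs u hu with k | k | k
    · rw [k, Wr]; omega
    · rw [k, Ww]; omega
    · have := WC u k; omega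
  · intro a b ha hb k
    rcases cs a ha with i | i | i <;> rcases cs b hb with j | j | j
    all_goals first
      | exact i.trans j.symm
      | (exfalso; rw [i, j] at k; omega)
      | (exfalso; have := WC b j; rw [i] at k; omega)
      | (exfalso; have := WC a i; rw [j] at k; omega)
      | (rw [Wv a (c.el a (mem_insert_of_mem i)).1, Wv b (c.el b (mem_insert_of_mem j)).1,
          m1 a i, m1 b j] at k; exact N.inj i j (by omega))

structure Cand (T : Rt G r) (y : V) : Prop where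
  hy : y ∈ T.ch r
  iy : ¬ Leaf G y
  d3 : 3 ≤ (T.ch r).card
  ex : ∃ c ∈ T.ch r, ¬ Leaf G c ∧ c ≠ y
  hs : ∀ z ∈ T.ch r, ¬ Leaf G z → z ≠ y → T.Simp z

lemma Cand.base {y : V} (K : T.Cand y) {p : ℕ} (p3 : 3 ≤ p)
    (nl : (univ.filter (fun v => Leaf G v)).card = p)
    (ni : (univ.filter (fun v => ¬ Leaf G v)).card ≤ p + 1) {c : V} (hc : c ∈ T.ch r)
    (ic : ¬ Leaf G c) (cy : c ≠ y) : T.Base p c y :=
  ⟨p3, by rw [Leaf, T.deg_root]; have := K.d3; omega, hc, K.hy, cy, ic, K.iy, nl, ni⟩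

lemma candOK {y : V} (K : T.Cand y) {p : ℕ} (p3 : 3 ≤ p)
    (nl : (univ.filter (fun v => Leaf G v)).card = p)
    (ni : (univ.filter (fun v => ¬ Leaf G v)).card ≤ p + 1) {c : V} (hc : c ∈ T.ch r)
    (ic : ¬ Leaf G c) (cy : c ≠ y) (nb : ¬ T.BigB p c) : Good G p := by
  have oth : ∀ c, ∃ z, z ∈ T.ch r ∧ z ≠ c ∧ z ≠ y := by
    intro c
    by_contra k
    push Not at k
    have : T.ch r ⊆ {c, y} := by
      intro z hz
      by_cases j : z = c
      · simp [j]
      · simp [k z hz j]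
    have e := card_le_card this
    have : ({c, y} : Finset V).card ≤ 2 := card_le_two
    have := K.d3
    omega
  by_cases k1 : ∃ c ∈ T.ch r, ¬ Leaf G c ∧ c ≠ y ∧ ¬ ∀ l ∈ T.ch c, Leaf G l
  · obtain ⟨c, hc, ic, cy, k⟩ := k1
    have B := K.base p3 nl ni hc ic cy
    obtain ⟨z, hz⟩ := oth c
    have hc' := T.mem_ch.1 hc
    cases K.hs c hc ic cy with
    | per _ _ _ a => exact absurd a k
    | step _ v _ e sv =>
      have mv : v ∈ T.ch c := by simp [e]
      have pv := (T.mem_ch.1 mv).2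
      by_cases lz : Leaf G z
      · obtain ⟨x, P, x1, x2⟩ := OD B sv (Or.inr pv) (fun j => ch_ne hc'.1 mv hc j)
          (fun j => ch_ne hc'.1 mv K.hy j) lz (Or.inl (T.mem_ch.1 hz.1).2)
        exact finp B P (by rw [S, e, sum_singleton, x1]) hz x2
      · obtain ⟨x, P, x1, x2⟩ := TD B sv (K.hs z hz.1 lz hz.2.2) pv (T.mem_ch.1 hz.1).2 hz.2.1 hz.2.2
        exact finp B P (by rw [S, e, sum_singleton, x1]) hz x2
  push Not at k1
  by_cases k2 : ∃ c ∈ T.ch r, ¬ Leaf G c ∧ c ≠ y ∧ (T.ch c).card = 1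
  · obtain ⟨c, hc, ic, cy, k⟩ := k2
    have B := K.base p3 nl ni hc ic cy
    obtain ⟨z, hz⟩ := oth c
    obtain ⟨a, e⟩ := card_eq_one.1 k
    have ma : a ∈ T.ch c := by simp [e]
    have la := k1 c hc ic cy a ma
    by_cases lz : Leaf G z
    · exact single2 B e la hz.1 lz
    · obtain ⟨x, P, x1, x2⟩ := OD B (K.hs z hz.1 lz hz.2.2) (Or.inl (T.mem_ch.1 hz.1).2) hz.2.1
        hz.2.2 la (Or.inr (T.mem_ch.1 ma).2)
      exact finp B P (by rw [S, e, sum_singleton, x2]) hz x1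
  push Not at k2
  have two : ∀ c ∈ T.ch r, ¬ Leaf G c → c ≠ y → 2 ≤ (T.ch c).card := by
    intro c hc ic cy
    have := k2 c hc ic cy
    rw [Leaf, T.deg (T.mem_ch.1 hc).1] at ic
    omega
  obtain ⟨z, hz⟩ := oth c
  refine small (K.base p3 nl ni hc ic cy) (k1 c hc ic cy) (two c hc ic cy) ?_ hz ?_
  · have e : ¬ 2 * p + 2 ≤ (T.ch c).card * ((T.ch c).card + 1) := fun j => nb ⟨k1 c hc ic cy, j⟩
    obtain ⟨m, hm⟩ := Nat.even_mul_succ_self (T.ch c).card
    omega
  · by_cases lz : Leaf G z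
    · exact Or.inl lz
    · exact Or.inr ⟨k1 z hz.1 lz hz.2.2, two z hz.1 lz hz.2.2⟩

lemma descend (hG : G.IsTree) (T : Rt G r) (hr : ¬ Leaf G r)
    (h : ∃ v, v ≠ r ∧ ¬ Leaf G v ∧ ¬ T.Simp v) :
    ∃ u, u ≠ r ∧ ∃ T' : Rt G u, T'.Cand (T.par u) ∧
      ∀ z ∈ T'.ch u, z ≠ T.par u → z ∈ T.ch u := by
  classical
  obtain ⟨u, hu, hm⟩ := exists_max_image
    (univ.filter (fun v => v ≠ r ∧ ¬ Leaf G v ∧ ¬ T.Simp v)) T.rk
    (by obtain ⟨v, hv⟩ := h; exact ⟨v, by simpa using hv⟩)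
  simp only [mem_filter, mem_univ, true_and] at hu hm
  obtain ⟨T'⟩ := exists_rt hG u
  have e : T'.ch u = insert (T.par u) (T.ch u) := by rw [← T'.nbr_root, T.nbr hu.1]
  have cs : ∀ z ∈ T.ch u, ¬ Leaf G z → T.Simp z := by
    intro z hz iz
    by_contra k
    have := hm z ⟨(T.mem_ch.1 hz).1, iz, k⟩
    have := T.rk_ch hz
    omega
  have ne : (T.ch u).Nonempty := by
    rw [nonempty_iff_ne_empty]
    exact fun k => hu.2.1 ((T.leaf_iff hu.1).2 k)
  obtain ⟨c, hc, ic⟩ : ∃ c ∈ T.ch u, ¬ Leaf G c := by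
    by_contra k
    push Not at k
    exact hu.2.2 (Simp.per u hu.1 ne k)
  have sub : ∀ z ∈ T'.ch u, z ≠ T.par u → z ∈ T.ch u := by
    intro z hz k
    rw [e, mem_insert] at hz
    exact hz.resolve_left k
  refine ⟨u, hu.1, T', ⟨by simp [e], T.par_int hr hu.1, ?_,
    ⟨c, by simp [e, hc], ic, fun k => T.par_not_ch hu.1 (k ▸ hc)⟩, ?_⟩, sub⟩
  · rw [e, card_insert_of_notMem (T.par_not_ch hu.1)]
    by_contra k
    have k1 : (T.ch u).card = 1 := by have := ne.card_pos; omega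
    obtain ⟨a, ha⟩ := card_eq_one.1 k1
    have : c = a := by simpa [ha] using hc
    exact hu.2.2 (Simp.step u c hu.1 (this ▸ ha) (cs c hc ic))
  · intro z hz iz k
    have m := sub z hz k
    exact (cs z m iz).transfer T' (T'.mem_ch.1 hz).1
      ((T.mem_ch.1 m).2.trans (T'.mem_ch.1 hz).2.symm)

end Rt

theorem main (hG : G.IsTree) {p : ℕ} (p3 : 3 ≤ p)
    (nl : (univ.filter (fun v => Leaf G v)).card = p) (hn : Fintype.card V ≤ 2 * p + 1) :
    Good G p := by
  have c0 := card_filter_add_card_filter_not (s := (univ : Finset V)) (fun v => Leaf G v)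
  rw [card_univ] at c0
  have ni : (univ.filter (fun v => ¬ Leaf G v)).card ≤ p + 1 := by omega
  obtain ⟨o, ho⟩ : ∃ o, ¬ Leaf G o := by
    by_contra k
    push Not at k
    have e1 := G.sum_degrees_eq_twice_card_edges
    rw [sum_congr rfl (fun v _ => k v)] at e1
    have e2 := hG.card_edgeFinset
    simp only [sum_const, card_univ, smul_eq_mul, mul_one] at e1
    omega
  have per : ∀ {r : V} (T : Rt G r) (w : V), w ≠ r → (∀ l ∈ T.ch w, Leaf G l) →
      ((G.neighborFinset w).filter (fun v => ¬ Leaf G v)).card ≤ 1 := by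
    intro r T w h1 h2
    refine le_trans (card_le_card (t := {T.par w}) ?_) (by simp)
    intro z hz
    rw [T.nbr h1, mem_filter, mem_insert] at hz
    exact mem_singleton.2 (hz.1.resolve_right (fun k => hz.2 (h2 z k)))
  obtain ⟨u, hu, hm⟩ := exists_min_image (univ.filter (fun w => ¬ Leaf G w ∧
      ((G.neighborFinset w).filter (fun v => ¬ Leaf G v)).card ≤ 1))
    (fun w => ((G.neighborFinset w).filter (fun v => Leaf G v)).card) (by
      obtain ⟨T⟩ := exists_rt hG o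
      obtain ⟨w, hw, hm⟩ := exists_max_image (univ.filter (fun v => ¬ Leaf G v)) T.rk
        ⟨o, by simpa using ho⟩
      simp only [mem_filter, mem_univ, true_and] at hw hm
      have lf : ∀ l ∈ T.ch w, Leaf G l := by
        intro l hl
        by_contra k
        have := hm l k
        have := T.rk_ch hl
        omega
      refine ⟨w, mem_filter.2 ⟨mem_univ _, hw, ?_⟩⟩
      by_cases k : w = o
      · subst k
        rw [T.nbr_root, filter_eq_empty_iff.2 (fun l hl => not_not.2 (lf l hl))]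
        simp
      · exact per T w k lf)
  simp only [mem_filter, mem_univ, true_and] at hu hm
  obtain ⟨T⟩ := exists_rt hG u
  by_cases k : ∃ v, v ≠ u ∧ ¬ Leaf G v ∧ ¬ T.Simp v
  swap
  · push Not at k
    by_cases k2 : ∀ w ∈ T.ch u, Leaf G w
    · exact T.star p3 nl hu.1 k2
    push Not at k2
    obtain ⟨v, hv, iv⟩ := k2
    have lf : ∀ w ∈ (T.ch u).erase v, Leaf G w := by
      intro w hw
      by_contra j
      rw [mem_erase] at hw
      exact hw.1 (card_le_one.1 hu.2 w (by simp [T.nbr_root, hw.2, j]) v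
        (by simp [T.nbr_root, hv, iv]))
    refine T.dbl p3 nl ni hu.1 hv (k v (T.mem_ch.1 hv).1 iv) lf ?_
    intro w h1 h2 h3
    have e := hm w ⟨by rw [T.leaf_iff h1]; exact h2.ne_empty, per T w h1 h3⟩
    refine le_trans (card_le_card ?_) (e.trans (card_le_card ?_))
    · intro z hz
      rw [T.nbr_root, mem_filter]
      exact ⟨mem_of_mem_erase hz, lf z hz⟩
    · intro z hz
      rw [T.nbr h1, mem_filter, mem_insert] at hz
      exact hz.1.resolve_left (fun j => T.par_int hu.1 h1 (j ▸ hz.2))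
  obtain ⟨r, -, T1, K, -⟩ := Rt.descend hG T hu.1 k
  by_cases j : ∃ (r : V) (T : Rt G r) (y c : V), T.Cand y ∧ c ∈ T.ch r ∧ ¬ Leaf G c ∧ c ≠ y ∧
      ¬ T.BigB p c
  · obtain ⟨r, T, y, c, K, a1, a2, a3, a4⟩ := j
    exact Rt.candOK K p3 nl ni a1 a2 a3 a4
  push Not at j
  obtain ⟨c, hc, ic, cy⟩ := K.ex
  have B := K.base p3 nl ni hc ic cy
  by_cases i : ∃ v, v ≠ r ∧ ¬ Leaf G v ∧ ¬ T1.Simp v
  · obtain ⟨r2, n2, T2, K2, sub⟩ := Rt.descend hG T1 B.hr i
    obtain ⟨w, hw, iw, wy⟩ := K2.ex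
    have m := T1.mem_ch.1 (sub w hw wy)
    have m2 := T2.mem_ch.1 hw
    have b := j r2 T2 _ w K2 hw iw wy
    rw [Rt.BigB, ← T1.ch_eq T2 m.1 m2.1 (m.2.trans m2.2.symm)] at b
    exact Rt.big B K.d3 (fun z => j r T1 _ z K) b m.1 (Or.inr (m.2 ▸ n2))
  · push Not at i
    have K' : T1.Cand c := ⟨hc, ic, K.d3, ⟨_, K.hy, K.iy, cy.symm⟩,
      fun z hz iz _ => i z (T1.mem_ch.1 hz).1 iz⟩
    exact Rt.big B K.d3 (fun z => j r T1 _ z K) (j r T1 c _ K' K.hy K.iy cy.symm)
      (T1.mem_ch.1 K.hy).1 (Or.inl rfl)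

end Pool.Agent.H.MP_033e98_co
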